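import Pool.Agent.Lib.MP_bca3e5_nt.IS.Defs

set_option autoImplicit false

/-! [IS K] the compactness theorem `R_K`. -/

namespace Pool.Agent.IS

open Finset Filter MeasureTheory

/-! ### The sum of the weights -/

private lemma is_K_sum (M : ℕ) :
    ∑ x ∈ range (2 ^ (M + 1) - 2), thw x = ∑ i ∈ range M, (1 / (i + 1) : ℝ) := by
  induction M with
  | zero => simp
  | succ M ih =>
    have h2 : 2 ≤ 2 ^ (M + 1) := by
      have := Nat.one_le_two_pow (n := M)
      rw [pow_succ]; omega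
    have hle : 2 ^ (M + 1) - 2 ≤ 2 ^ (M + 1 + 1) - 2 := by
      rw [pow_succ 2 (M + 1)]; omega
    rw [Finset.sum_range_succ, ← ih, ← Finset.sum_range_add_sum_Ico _ hle]
    congr 1
    have hc : ∀ x ∈ Ico (2 ^ (M + 1) - 2) (2 ^ (M + 1 + 1) - 2),
        thw x = 1 / ((2 : ℝ) ^ (M + 1) * (M + 1)) := by
      intro x hx
      rw [Finset.mem_Ico] at hx
      have hl : mth x = M + 1 := by
        unfold mth
        rw [Nat.log_eq_iff (Or.inl (by omega))]
        omega
      unfold thw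
      rw [hl]
      push_cast
      rfl
    rw [Finset.sum_congr rfl hc, Finset.sum_const, Nat.card_Ico, nsmul_eq_mul]
    have hn : 2 ^ (M + 1 + 1) - 2 - (2 ^ (M + 1) - 2) = 2 ^ (M + 1) := by
      rw [pow_succ 2 (M + 1)]; omega
    rw [hn]
    push_cast
    have : (0 : ℝ) < 2 ^ (M + 1) := by positivity
    field_simp

private lemma is_K_thw_nonneg (x : ℕ) : 0 ≤ thw x := by
  unfold thw; positivity

private lemma is_K_thw_pos (x : ℕ) : 0 < thw x := by
  have : 0 < mth x := Nat.log_pos (by norm_num) (by omega)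
  have h : (0 : ℝ) < mth x := by exact_mod_cast this
  unfold thw; positivity

private lemma is_K_div (R : ℝ) : ∃ j : ℕ, R ≤ ∑ x ∈ range j, thw x := by
  obtain ⟨M, hM⟩ := (Real.tendsto_sum_range_one_div_nat_succ_atTop.eventually
    (eventually_ge_atTop R)).exists
  exact ⟨2 ^ (M + 1) - 2, by rw [is_K_sum]; exact hM⟩

/-! ### The second moment inequality -/

private lemma is_K_moment {k : ℕ} (c C : ℝ) (hc : 0 < c) (hC : 0 < C) (Gd : ℕ → Prop)
    (Ev : ℕ → ℕ → Prop) (N : ℕ) (w : ℕ → ℝ) (Y : Fin k → ℕ → ℝ) (T : Fin k → ℝ)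
    (hL : Law Gd (fun (i : Fin k) x => Ev i x) c C (fun i => thw i) N w Y T)
    (j m : ℕ) (hjk : j ≤ k) (h1 : 1 / c ≤ ∑ x ∈ range j, thw x)
    (h2 : m ≤ c ^ 2 / 2 * ∑ x ∈ range j, thw x) :
    ∃ G ⊆ range N, c ^ 2 / (4 * (C + c)) ≤ ∑ x ∈ G, w x ∧
      ∀ x ∈ G, w x ≠ 0 → ∃ I : Finset ℕ, m ≤ I.card ∧ I ⊆ range j ∧ ∀ i ∈ I, Ev i x := by
  classical
  set A : Finset (Fin k) := univ.filter (fun i : Fin k => i.val < j) with hA
  set S : ℕ → ℝ := fun x => ∑ i ∈ A, Y i x with hS
  set t : ℝ := ∑ i ∈ A, T i with ht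
  have hT0 : ∀ i, 0 ≤ T i := fun i => le_trans (by
    have := is_K_thw_nonneg i
    positivity) (hL.T0 i)
  have hθ : ∑ i ∈ A, thw i = ∑ x ∈ range j, thw x := by
    refine Finset.sum_bij (fun (i : Fin k) _ => i.val) ?_ ?_ ?_ ?_
    · intro i hi
      rw [hA, Finset.mem_filter] at hi
      exact Finset.mem_range.2 hi.2
    · intro a _ b _ h
      exact Fin.ext h
    · intro b hb
      rw [Finset.mem_range] at hb
      exact ⟨⟨b, lt_of_lt_of_le hb hjk⟩, by rw [hA, Finset.mem_filter]; exact ⟨mem_univ _, hb⟩, rfl⟩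
    · intro i _
      rfl
  have htlo : c * ∑ x ∈ range j, thw x ≤ t := by
    rw [← hθ, Finset.mul_sum]
    exact Finset.sum_le_sum (fun i _ => hL.T0 i)
  have ht1 : 1 ≤ t := by
    refine le_trans ?_ htlo
    rw [div_le_iff₀ hc] at h1
    linarith
  have hY0 : ∀ i x, 0 ≤ Y i x := fun i x => (hL.Y0 i x).1
  have hY1 : ∀ i x, Y i x ≤ 1 := fun i x => (hL.Y0 i x).2
  have hS0 : ∀ x, 0 ≤ S x := fun x => Finset.sum_nonneg (fun i _ => hY0 i x)
  set m1 : ℝ := ∑ x ∈ range N, w x * S x with hm1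
  have hm1lo : c * t ≤ m1 := by
    have : m1 = ∑ i ∈ A, ∑ x ∈ range N, w x * Y i x := by
      rw [hm1, Finset.sum_comm]
      refine Finset.sum_congr rfl (fun x _ => ?_)
      rw [hS, Finset.mul_sum]
    rw [this, ht, Finset.mul_sum]
    exact Finset.sum_le_sum (fun i _ => hL.lo i)
  have hm2 : ∑ x ∈ range N, w x * S x ^ 2 ≤ C * t ^ 2 + m1 := by
    have e1 : ∑ x ∈ range N, w x * S x ^ 2 =
        ∑ i ∈ A, ∑ l ∈ A, ∑ x ∈ range N, w x * (Y i x * Y l x) := by
      have : ∀ x, w x * S x ^ 2 = ∑ i ∈ A, ∑ l ∈ A, w x * (Y i x * Y l x) := by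
        intro x
        rw [hS, sq, Finset.sum_mul_sum, Finset.mul_sum]
        refine Finset.sum_congr rfl (fun i _ => ?_)
        rw [Finset.mul_sum]
      rw [Finset.sum_congr rfl (fun x _ => this x), Finset.sum_comm]
      refine Finset.sum_congr rfl (fun i _ => ?_)
      rw [Finset.sum_comm]
    rw [e1]
    have e2 : ∀ i ∈ A, ∑ l ∈ A, ∑ x ∈ range N, w x * (Y i x * Y l x) ≤
        ∑ l ∈ A, C * (T i * T l) + ∑ x ∈ range N, w x * Y i x := by
      intro i hi
      have e3 : ∑ l ∈ A, ∑ x ∈ range N, w x * (Y i x * Y l x) ≤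
          ∑ l ∈ A, (C * (T i * T l) + if l = i then ∑ x ∈ range N, w x * Y i x else 0) := by
        refine Finset.sum_le_sum (fun l _ => ?_)
        by_cases hli : l = i
        · subst hli
          rw [if_pos rfl]
          have a1 : 0 ≤ C * (T l * T l) := mul_nonneg hC.le (mul_nonneg (hT0 l) (hT0 l))
          have a2 : ∑ x ∈ range N, w x * (Y l x * Y l x) ≤ ∑ x ∈ range N, w x * Y l x := by
            refine Finset.sum_le_sum (fun x _ => mul_le_mul_of_nonneg_left ?_ (hL.w0 x))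
            have := hY0 l x
            have := hY1 l x
            nlinarith
          linarith
        · rw [if_neg hli, add_zero]
          exact hL.up i l (fun h => hli h.symm)
      refine le_trans e3 ?_
      rw [Finset.sum_add_distrib, Finset.sum_ite_eq' A i, if_pos hi]
    refine le_trans (Finset.sum_le_sum e2) ?_
    rw [Finset.sum_add_distrib]
    have e4 : ∑ i ∈ A, ∑ l ∈ A, C * (T i * T l) = C * t ^ 2 := by
      rw [ht, sq, Finset.sum_mul_sum, Finset.mul_sum]
      refine Finset.sum_congr rfl (fun i _ => ?_)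
      rw [Finset.mul_sum]
    have e5 : ∑ i ∈ A, ∑ x ∈ range N, w x * Y i x = m1 := by
      rw [hm1, Finset.sum_comm]
      refine Finset.sum_congr rfl (fun x _ => ?_)
      rw [hS, Finset.mul_sum]
    rw [e4, e5]
  set G : Finset ℕ := (range N).filter (fun x => c * t / 2 ≤ S x) with hG
  refine ⟨G, Finset.filter_subset _ _, ?_, ?_⟩
  · -- the mass of `G`
    set g : ℝ := ∑ x ∈ G, w x with hg
    have hg0 : 0 ≤ g := Finset.sum_nonneg (fun x _ => hL.w0 x)
    have hct : 0 ≤ c * t := by positivity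
    have b1 : m1 / 2 ≤ ∑ x ∈ G, w x * S x := by
      have b2 : ∑ x ∈ (range N).filter (fun x => ¬ c * t / 2 ≤ S x), w x * S x ≤ c * t / 2 := by
        calc ∑ x ∈ (range N).filter (fun x => ¬ c * t / 2 ≤ S x), w x * S x
            ≤ ∑ x ∈ (range N).filter (fun x => ¬ c * t / 2 ≤ S x), w x * (c * t / 2) := by
              refine Finset.sum_le_sum (fun x hx => mul_le_mul_of_nonneg_left ?_ (hL.w0 x))
              rw [Finset.mem_filter, not_le] at hx
              exact hx.2.le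
          _ = (∑ x ∈ (range N).filter (fun x => ¬ c * t / 2 ≤ S x), w x) * (c * t / 2) := by
              rw [Finset.sum_mul]
          _ ≤ 1 * (c * t / 2) := by
              refine mul_le_mul_of_nonneg_right (le_trans ?_ hL.w1) (by positivity)
              exact Finset.sum_le_sum_of_subset_of_nonneg (Finset.filter_subset _ _)
                (fun x _ _ => hL.w0 x)
          _ = c * t / 2 := one_mul _
      have b3 := Finset.sum_filter_add_sum_filter_not (range N) (fun x => c * t / 2 ≤ S x)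
        (fun x => w x * S x)
      rw [← hm1, ← hG] at b3
      linarith
    have b4 : (∑ x ∈ G, w x * S x) ^ 2 ≤ g * ∑ x ∈ G, w x * S x ^ 2 := by
      rw [hg]
      refine Finset.sum_sq_le_sum_mul_sum_of_sq_le_mul G (fun x _ => hL.w0 x)
        (fun x _ => mul_nonneg (hL.w0 x) (sq_nonneg _)) (fun x _ => le_of_eq ?_)
      ring
    have b5 : ∑ x ∈ G, w x * S x ^ 2 ≤ C * t ^ 2 + m1 := by
      refine le_trans ?_ hm2
      exact Finset.sum_le_sum_of_subset_of_nonneg (Finset.filter_subset _ _)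
        (fun x _ _ => mul_nonneg (hL.w0 x) (sq_nonneg _))
    have hm1c : c ≤ m1 := by nlinarith
    have hm1p : 0 < m1 := lt_of_lt_of_le hc hm1c
    have b6 : (m1 / 2) ^ 2 ≤ g * (C * t ^ 2 + m1) := by
      calc (m1 / 2) ^ 2 ≤ (∑ x ∈ G, w x * S x) ^ 2 := by
            apply pow_le_pow_left₀ (by positivity) b1
        _ ≤ g * ∑ x ∈ G, w x * S x ^ 2 := b4
        _ ≤ g * (C * t ^ 2 + m1) := mul_le_mul_of_nonneg_left b5 hg0
    have hD : 0 < C * t ^ 2 + m1 := by positivity
    have b7 : c ^ 2 / (4 * (C + c)) ≤ (m1 / 2) ^ 2 / (C * t ^ 2 + m1) := by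
      rw [div_le_div_iff₀ (by positivity) hD]
      have i1 : c ^ 2 * t ^ 2 ≤ m1 ^ 2 := by
        have := pow_le_pow_left₀ hct hm1lo 2
        nlinarith
      have i2 : c ^ 2 * m1 ≤ m1 ^ 2 * c := by
        nlinarith [mul_nonneg hc.le hm1p.le, mul_nonneg (mul_nonneg hc.le hm1p.le) (sub_nonneg.2 hm1c)]
      have i3 := mul_le_mul_of_nonneg_left i1 hC.le
      nlinarith
    refine le_trans b7 ?_
    rw [div_le_iff₀ hD]
    exact b6
  · intro x hx hwx
    rw [hG, Finset.mem_filter] at hx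
    refine ⟨(A.filter (fun i : Fin k => Ev i x)).image (fun i : Fin k => i.val), ?_, ?_, ?_⟩
    · rw [Finset.card_image_of_injective _ Fin.val_injective]
      have c1 : S x ≤ ((A.filter (fun i : Fin k => Ev i x)).card : ℝ) := by
        rw [hS]
        have : ∑ i ∈ A, Y i x ≤ ∑ i ∈ A, (if Ev i x then (1 : ℝ) else 0) := by
          refine Finset.sum_le_sum (fun i _ => ?_)
          by_cases h : Ev i x
          · rw [if_pos h]; exact hY1 i x
          · rw [if_neg h]
            by_contra hn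
            exact h (hL.YE i x hwx (fun h0 => hn (le_of_eq h0)))
        refine le_trans this ?_
        rw [Finset.sum_boole]
      have c2 : (m : ℝ) ≤ c * t / 2 := by
        refine le_trans h2 ?_
        have := mul_le_mul_of_nonneg_left htlo hc.le
        nlinarith
      have : (m : ℝ) ≤ ((A.filter (fun i : Fin k => Ev i x)).card : ℝ) := le_trans c2 (le_trans hx.2 c1)
      exact_mod_cast this
    · intro i hi
      rw [Finset.mem_image] at hi
      obtain ⟨a, ha, rfl⟩ := hi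
      rw [Finset.mem_filter, hA, Finset.mem_filter] at ha
      exact Finset.mem_range.2 ha.1.2
    · intro i hi
      rw [Finset.mem_image] at hi
      obtain ⟨a, ha, rfl⟩ := hi
      rw [Finset.mem_filter] at ha
      exact ha.2

/-! ### The measures -/

/-- The measure on `ℕ → Bool`. -/
private noncomputable def is_K_mu (w : ℕ → ℝ) (N : ℕ) (f : ℕ → ℕ → Bool) : Measure (ℕ → Bool) :=
  ∑ x ∈ range N, ENNReal.ofReal (w x) • Measure.dirac (f x) +
    ENNReal.ofReal (1 - ∑ x ∈ range N, w x) • Measure.dirac (fun _ => false)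

private lemma is_K_prob (w : ℕ → ℝ) (N : ℕ) (f : ℕ → ℕ → Bool) (h0 : ∀ x, 0 ≤ w x)
    (h1 : ∑ x ∈ range N, w x ≤ 1) : IsProbabilityMeasure (is_K_mu w N f) := by
  constructor
  unfold is_K_mu
  rw [Measure.add_apply, Measure.finsetSum_apply, Measure.smul_apply, measure_univ]
  have : ∀ x ∈ range N, (ENNReal.ofReal (w x) • Measure.dirac (f x)) Set.univ =
      ENNReal.ofReal (w x) := by
    intro x _
    rw [Measure.smul_apply, measure_univ, smul_eq_mul, mul_one]
  rw [Finset.sum_congr rfl this, ← ENNReal.ofReal_sum_of_nonneg (fun x _ => h0 x), smul_eq_mul,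
    mul_one, ← ENNReal.ofReal_add (Finset.sum_nonneg (fun x _ => h0 x)) (by linarith)]
  rw [add_sub_cancel, ENNReal.ofReal_one]

private lemma is_K_lower (w : ℕ → ℝ) (N : ℕ) (f : ℕ → ℕ → Bool) (h0 : ∀ x, 0 ≤ w x)
    (U : Set (ℕ → Bool)) (hU : MeasurableSet U) (G : Finset ℕ) (hG : G ⊆ range N)
    (hf : ∀ x ∈ G, w x ≠ 0 → f x ∈ U) :
    ENNReal.ofReal (∑ x ∈ G, w x) ≤ is_K_mu w N f U := by
  unfold is_K_mu
  rw [Measure.add_apply, Measure.finsetSum_apply]
  refine le_trans ?_ le_self_add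
  rw [ENNReal.ofReal_sum_of_nonneg (fun x _ => h0 x)]
  refine le_trans (Finset.sum_le_sum (g := fun x => (ENNReal.ofReal (w x) • Measure.dirac (f x)) U)
    (fun x hx => ?_)) (Finset.sum_le_sum_of_subset hG)
  rw [Measure.smul_apply, Measure.dirac_apply' _ hU, smul_eq_mul]
  by_cases hw : w x = 0
  · simp [hw]
  · rw [Set.indicator_of_mem (hf x hx hw)]
    simp

private lemma is_K_zero (w : ℕ → ℝ) (N : ℕ) (f : ℕ → ℕ → Bool)
    (U : Set (ℕ → Bool)) (hU : MeasurableSet U) (h1 : (fun _ => false) ∉ U)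
    (hf : ∀ x, w x ≠ 0 → f x ∉ U) :
    is_K_mu w N f U = 0 := by
  unfold is_K_mu
  rw [Measure.add_apply, Measure.finsetSum_apply, Measure.smul_apply, Measure.dirac_apply' _ hU,
    Set.indicator_of_notMem h1, smul_zero, add_zero]
  refine Finset.sum_eq_zero (fun x _ => ?_)
  rw [Measure.smul_apply, Measure.dirac_apply' _ hU, smul_eq_mul]
  by_cases hw : w x = 0
  · simp [hw]
  · rw [Set.indicator_of_notMem (hf x hw), mul_zero]

/-! ### Clopen sets -/

private lemma is_K_clopen (i : ℕ) : IsClopen {ω : ℕ → Bool | ω i = true} :=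
  (isClopen_discrete ({true} : Set Bool)).preimage (continuous_apply i)

/-- All coordinates in `J` are true. -/
private def is_K_V (J : Finset ℕ) : Set (ℕ → Bool) := {ω | ∀ i ∈ J, ω i = true}

private lemma is_K_V_clopen (J : Finset ℕ) : IsClopen (is_K_V J) := by
  have : is_K_V J = ⋂ i ∈ J, {ω : ℕ → Bool | ω i = true} := by
    ext ω
    simp [is_K_V]
  rw [this]
  exact J.finite_toSet.isClopen_biInter (fun i _ => is_K_clopen i)

/-- At least `m` of the coordinates `< j` are true. -/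
private def is_K_U (j m : ℕ) : Set (ℕ → Bool) :=
  {ω | ∃ I : Finset ℕ, I ∈ (range j).powerset ∧ m ≤ I.card ∧ ∀ i ∈ I, ω i = true}

private lemma is_K_U_clopen (j m : ℕ) : IsClopen (is_K_U j m) := by
  classical
  have : is_K_U j m = ⋃ I ∈ (range j).powerset.filter (fun I => m ≤ I.card), is_K_V I := by
    ext ω
    simp only [is_K_U, is_K_V, Set.mem_ofPred_eq, Set.mem_iUnion, Finset.mem_filter]
    constructor
    · rintro ⟨I, h1, h2, h3⟩
      exact ⟨I, ⟨h1, h2⟩, h3⟩
    · rintro ⟨I, ⟨h1, h2⟩, h3⟩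
      exact ⟨I, h1, h2, h3⟩
  rw [this]
  exact (Finset.finite_toSet _).isClopen_biUnion (fun I _ => is_K_V_clopen I)

theorem p_K : S_K := by
  classical
  intro c C hc hC Gd Ev hL
  -- the numbers `j m`
  have hj : ∀ m : ℕ, ∃ j : ℕ, 1 / c ≤ ∑ x ∈ range j, thw x ∧
      (m : ℝ) ≤ c ^ 2 / 2 * ∑ x ∈ range j, thw x := by
    intro m
    obtain ⟨j, hj⟩ := is_K_div (max (1 / c) (m / (c ^ 2 / 2)))
    refine ⟨j, le_trans (le_max_left _ _) hj, ?_⟩
    have := le_trans (le_max_right _ _) hj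
    rw [div_le_iff₀ (by positivity)] at this
    linarith
  choose j hj1 hj2 using hj
  -- the laws
  choose N w Y T hLaw using fun k : ℕ => hL (k + 1) (k + 1) (Nat.succ_pos k)
  set f : ℕ → ℕ → Bool := fun x i => decide (Ev i x) with hf
  set P : ℕ → ProbabilityMeasure (ℕ → Bool) := fun k =>
    ⟨is_K_mu (w k) (N k) f, is_K_prob (w k) (N k) f (hLaw k).w0 (hLaw k).w1⟩ with hP
  set δ : ℝ := c ^ 2 / (4 * (C + c)) with hδ
  have hδ0 : 0 < δ := by rw [hδ]; positivity
  -- lower bound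
  have hlow : ∀ m k : ℕ, j m ≤ k + 1 → ENNReal.ofReal δ ≤
      (P k : Measure (ℕ → Bool)) (is_K_U (j m) m) := by
    intro m k hk
    obtain ⟨G, hG, hG1, hG2⟩ := is_K_moment c C hc hC _ Ev (N k) (w k) (Y k) (T k) (hLaw k) (j m) m
      hk (hj1 m) (hj2 m)
    refine le_trans (ENNReal.ofReal_le_ofReal hG1) ?_
    refine is_K_lower (w k) (N k) f (hLaw k).w0 _ (is_K_U_clopen _ _).isOpen.measurableSet G hG ?_
    intro x hx hw
    obtain ⟨I, hI1, hI2, hI3⟩ := hG2 x hx hw
    exact ⟨I, Finset.mem_powerset.2 hI2, hI1, fun i hi => by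
      rw [hf]; exact decide_eq_true (hI3 i hi)⟩
  -- zero
  have hzero : ∀ J : Finset ℕ, J.Nonempty → {x : ℕ | Gd x ∧ ∀ i ∈ J, Ev i x}.Finite →
      ∃ k0 : ℕ, ∀ k, k0 ≤ k → (P k : Measure (ℕ → Bool)) (is_K_V J) = 0 := by
    intro J hJ hfin
    obtain ⟨b, hb⟩ := hfin.bddAbove
    refine ⟨b, fun k hk => ?_⟩
    refine is_K_zero (w k) (N k) f _ (is_K_V_clopen _).isOpen.measurableSet ?_ ?_
    · intro h
      obtain ⟨i, hi⟩ := hJ
      exact Bool.false_ne_true (h i hi)
    · intro x hw hx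
      have h1 := (hLaw k).wG x hw
      have h2 : x ∈ {x : ℕ | Gd x ∧ ∀ i ∈ J, Ev i x} := by
        refine ⟨h1.2.2, fun i hi => ?_⟩
        have := hx i hi
        rw [hf] at this
        exact of_decide_eq_true this
      have h3 := hb h2
      have h4 := h1.1
      omega
  -- the limit measure
  set F : Ultrafilter (ProbabilityMeasure (ℕ → Bool)) := (hyperfilter ℕ).map P with hF
  set Q : ProbabilityMeasure (ℕ → Bool) := F.lim with hQ
  have hlim : Tendsto P (hyperfilter ℕ : Filter ℕ) (nhds Q) := by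
    have := Ultrafilter.le_nhds_lim F
    exact this
  have hhy : (hyperfilter ℕ : Filter ℕ) ≤ atTop := by
    rw [← Nat.cofinite_eq_atTop]
    exact hyperfilter_le_cofinite
  have hcl : ∀ E : Set (ℕ → Bool), IsClopen E →
      Tendsto (fun k => (P k : Measure (ℕ → Bool)) E) (hyperfilter ℕ : Filter ℕ)
        (nhds ((Q : Measure (ℕ → Bool)) E)) := by
    intro E hE
    exact ProbabilityMeasure.tendsto_measure_of_null_frontier_of_tendsto' hlim (by
      rw [hE.frontier_eq]; simp)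
  have hQU : ∀ m, ENNReal.ofReal δ ≤ (Q : Measure (ℕ → Bool)) (is_K_U (j m) m) := by
    intro m
    refine ge_of_tendsto (hcl _ (is_K_U_clopen _ _)) ?_
    refine hhy (Filter.eventually_atTop.2 ⟨j m, fun k hk => hlow m k (by omega)⟩)
  have hQV : ∀ J : Finset ℕ, J.Nonempty → {x : ℕ | Gd x ∧ ∀ i ∈ J, Ev i x}.Finite →
      (Q : Measure (ℕ → Bool)) (is_K_V J) = 0 := by
    intro J hJ hfin
    obtain ⟨k0, hk0⟩ := hzero J hJ hfin
    refine tendsto_nhds_unique (hcl _ (is_K_V_clopen J)) ?_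
    refine Filter.Tendsto.congr' (f₁ := fun _ => 0) ?_ tendsto_const_nhds
    refine hhy (Filter.eventually_atTop.2 ⟨k0, fun k hk => (hk0 k hk).symm⟩)
  -- the limsup
  set L : Set (ℕ → Bool) := ⋂ n : ℕ, ⋃ m : ℕ, ⋃ _ : n ≤ m, is_K_U (j m) m with hLdef
  have hLm : ENNReal.ofReal δ ≤ (Q : Measure (ℕ → Bool)) L := by
    have hmeas : ∀ n : ℕ, MeasurableSet (⋃ m : ℕ, ⋃ _ : n ≤ m, is_K_U (j m) m) := fun n =>
      MeasurableSet.iUnion (fun m => MeasurableSet.iUnion (fun _ => (is_K_U_clopen _ _).isOpen.measurableSet))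
    have := tendsto_measure_iInter_atTop (μ := (Q : Measure (ℕ → Bool)))
      (s := fun n : ℕ => ⋃ m : ℕ, ⋃ _ : n ≤ m, is_K_U (j m) m)
      (fun n => (hmeas n).nullMeasurableSet) (by
        intro a b hab
        refine Set.iUnion_mono (fun m => ?_)
        refine Set.iUnion_subset (fun h => ?_)
        exact Set.subset_iUnion_of_subset (le_trans hab h) (le_refl _))
      ⟨0, measure_ne_top _ _⟩
    refine ge_of_tendsto' this (fun n => ?_)
    refine le_trans (hQU n) (measure_mono ?_)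
    exact Set.subset_iUnion_of_subset n (Set.subset_iUnion_of_subset (le_refl n) (le_refl _))
  set Z : Set (ℕ → Bool) := ⋃ J : {J : Finset ℕ // J.Nonempty ∧
    {x : ℕ | Gd x ∧ ∀ i ∈ J, Ev i x}.Finite}, is_K_V J.1 with hZ
  have hZ0 : (Q : Measure (ℕ → Bool)) Z = 0 := measure_iUnion_null (fun J => hQV J.1 J.2.1 J.2.2)
  obtain ⟨ω, hω1, hω2⟩ : ∃ ω, ω ∈ L ∧ ω ∉ Z := by
    by_contra hcon
    push Not at hcon
    have : (Q : Measure (ℕ → Bool)) L ≤ (Q : Measure (ℕ → Bool)) Z := measure_mono hcon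
    rw [hZ0] at this
    have h2 := le_trans hLm this
    rw [nonpos_iff_eq_zero, ENNReal.ofReal_eq_zero] at h2
    linarith
  refine ⟨{i | ω i = true}, ?_, ?_⟩
  · intro hfin
    obtain ⟨S, hS⟩ : ∃ S : Finset ℕ, (S : Set ℕ) = {i | ω i = true} :=
      ⟨hfin.toFinset, by simp⟩
    rw [hLdef, Set.mem_iInter] at hω1
    have h1 := hω1 (S.card + 1)
    rw [Set.mem_iUnion] at h1
    obtain ⟨m, h1⟩ := h1
    rw [Set.mem_iUnion] at h1
    obtain ⟨hm, I, _, hI1, hI2⟩ := h1
    have hIS : I ⊆ S := by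
      intro i hi
      have : i ∈ (S : Set ℕ) := by rw [hS]; exact hI2 i hi
      exact this
    have := Finset.card_le_card hIS
    omega
  · -- nonempty sets first
    have hne : ∀ J : Finset ℕ, J.Nonempty → (J : Set ℕ) ⊆ {i | ω i = true} →
        {x : ℕ | Gd x ∧ ∀ i ∈ J, Ev i x}.Infinite := by
      intro J hJ hsub hfin
      apply hω2
      rw [hZ, Set.mem_iUnion]
      exact ⟨⟨J, hJ, hfin⟩, fun i hi => hsub hi⟩
    intro J hsub
    by_cases hJ : J.Nonempty
    · exact hne J hJ hsub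
    · rw [Finset.not_nonempty_iff_eq_empty] at hJ
      subst hJ
      have h1 : ∃ i, ω i = true := by
        rw [hLdef, Set.mem_iInter] at hω1
        have h1 := hω1 1
        rw [Set.mem_iUnion] at h1
        obtain ⟨m, h1⟩ := h1
        rw [Set.mem_iUnion] at h1
        obtain ⟨hm, I, _, hI1, hI2⟩ := h1
        have : 0 < I.card := by omega
        obtain ⟨i, hi⟩ := Finset.card_pos.1 this
        exact ⟨i, hI2 i hi⟩
      obtain ⟨i, hi⟩ := h1
      refine (hne {i} (Finset.singleton_nonempty i) (by simpa using hi)).mono ?_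
      rintro x ⟨hx, -⟩
      exact ⟨hx, fun l hl => absurd hl (Finset.notMem_empty l)⟩

end Pool.Agent.IS
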