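import Pool.Agent.Lib.MP_bca3e5_nt.IS.Defs
import Pool.Agent.Lib.MP_0da313_nt.CM.P.S0
import Pool.Agent.Lib.MP_0da313_nt.CM.P.T3

set_option autoImplicit false

/-!
[IS U1] The upper bound for the sum over the points where the form `some i` has no prime factor `< kz n`.
-/

namespace Pool.Agent.IS

open Finset Filter
open Pool.Agent.MP89da58 (bil pw nn supp part kapD)
open Pool.Agent.MT (PJf LocD dvI ZI sp)
open Pool.Agent.BVall (om PK lev RepB Dens mem_PK)
open Pool.Agent.Lib.MP_0da313_nt (Admissible lineRestrict val singV W)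
open Pool.Agent.CH.S (th Pr gd RepC V)
open Pool.Agent.CM (Fam F12 F3 kz ky k3 lD al cv z0 sT er)
open Pool.Agent.CM.W (WPk yM)
open Pool.Agent.CM.F (DF qf Par Pre Wts cm_S0_seq0 cm_S0_small cm_S0_facts cm_T3_lim
  cm_S0_z_le_lev cm_T3_monoB cm_T3_mono cm_T3_V_nonneg cm_S0_kap_pos)

theorem p_U1 : S_U1 := by
  intro happ hcnv hmain hrc hdns hmass hbv hwin hP ι _ _ _ D F B0 M B A hD hB0 hM
  filter_upwards [cm_S0_seq0 happ hcnv hmass hbv hwin F B0 M B A hD hB0 hM,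
    cm_S0_small F B0 M 0, cm_S0_facts hdns hP F hD B0 M hB0, hmass ι D F 1 le_rfl,
    cm_T3_lim 1 le_rfl, hmain B0 hB0]
    with n hseq hsm hfa hma hlim hmain n' P hp Fp Fm hpre i g hg
  obtain ⟨ha, -, hc, hd, -, hf⟩ := hsm n' P hp
  obtain ⟨f1, f2, f3, f4⟩ := hfa n' P hp
  obtain ⟨g0, g1, g2, g3, g4⟩ := f3 none Fp Fm hpre
  obtain ⟨l1, l2, l3, l4, l5, l6⟩ := hlim (z0 D n') hf ha
  have hn1 : (1 : ℝ) ≤ n := by
    have : 1 ≤ n := by omega
    exact_mod_cast this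
  have hn0 : (0 : ℝ) < n := by linarith
  have hlev3 : (1 : ℝ) ≤ (lev (2 * D) n' : ℝ) ^ 3 := by
    refine one_le_pow₀ ?_
    exact_mod_cast hf.trans (cm_S0_z_le_lev D n')
  have hdis : Disjoint (PK (2 * D) n') (Pr (z0 D n' + 1) (kz n)) := by
    rw [Finset.disjoint_left]
    intro p hp1 hp2
    have h1 : p ≤ z0 D n' := (mem_PK.1 hp1).2
    have h2 := (Finset.mem_filter.1 hp2).2.2
    omega
  have hrB : ∀ Ff : (ℕ → ℝ) → ℝ, RepB (PK (2 * D) n')
      (fun T => ∏ p ∈ T, p ≤ lev (2 * D) n' ^ 3) Ff → RepB (PK (2 * D) n')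
      (fun T => ∏ p ∈ T, (p : ℝ) ≤ (lev (2 * D) n' : ℝ) ^ 3) Ff := by
    intro Ff h
    refine cm_T3_monoB h fun T _ hT => ?_
    beta_reduce at hT ⊢
    have h1 : ((∏ p ∈ T, p : ℕ) : ℝ) ≤ ((lev (2 * D) n' ^ 3 : ℕ) : ℝ) := Nat.cast_le.2 hT
    push_cast at h1
    exact h1
  have hkz1 : (1 : ℝ) ≤ (kz n : ℝ) := by
    have : 1 ≤ kz n := by omega
    exact_mod_cast this
  have hkk : (kz n : ℝ) ≤ (Pool.Agent.CM.ky 1 n : ℝ) := Nat.cast_le.2 l2
  have hl5 : (kz n : ℝ) * kz n < lD n :=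
    lt_of_le_of_lt (mul_le_mul_of_nonneg_left hkk (by linarith)) l5
  have hl4 : (kz n : ℝ) ≤ lD n := by nlinarith
  have hrep := (hrc (PK (2 * D) n') (z0 D n' + 1) (kz n) (kz n) (kz n)
    ((lev (2 * D) n' : ℝ) ^ 3)
    (lD n) Fp Fm (by omega) l1 le_rfl hdis hl4 hl5 hlev3 (hrB Fp hpre.rp) (hrB Fm hpre.rm)).2
    le_rfl
  have hrep' : RepC (PK (2 * D) n' ∪ Pr (z0 D n' + 1) (kz n))
      (fun T => ∏ p ∈ T, (p : ℝ) ≤ (n : ℝ) ^ (4974 / 10000 : ℝ))
      (F3 Fp (z0 D n' + 1) (kz n) (lD n)) := by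
    refine cm_T3_mono hrep fun T _ hT => ?_
    beta_reduce at hT ⊢
    refine hT.trans ?_
    calc (lev (2 * D) n' : ℝ) ^ 3 * lD n ≤ (n : ℝ) ^ (1 / 1000 : ℝ) * (n : ℝ) ^ (273 / 550 : ℝ) :=
          mul_le_mul_of_nonneg_right hp.hlev (Real.rpow_nonneg hn0.le _)
      _ = (n : ℝ) ^ (1 / 1000 + 273 / 550 : ℝ) := by rw [Real.rpow_add hn0]
      _ ≤ (n : ℝ) ^ (4974 / 10000 : ℝ) := Real.rpow_le_rpow_of_exponent_le hn1 (by norm_num)
  have key := hseq n' P hp (some i) (kz n) (F3 Fp (z0 D n' + 1) (kz n) (lD n))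
    (Or.inl (by simp)) (l2.trans l6) hrep' g hg
  have key2 := (abs_le.1 key).2
  have hmt := hmain (z0 D n') hp.hzB ha Fp (F.rd n (z0 D n') none)
    (W (F.rd n (z0 D n') none) (PK (2 * D) n')) g0 g1 g2 (by
      intro p hp'
      unfold Fam.rd
      rw [if_neg (not_le.2 hp')])
  have hV1 := cm_T3_V_nonneg (z0 D n' + 1) (kz n)
  have hq := f4 g
  have hkap := cm_S0_kap_pos (z0 D n')
  have hu : 0 < |(F.u none : ℝ)| := abs_pos.2 (by exact_mod_cast F.hu none)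
  have hh := F.hhw
  have hsT0 : 0 ≤ sT (F.a0 n) (F.NX n none) := by
    have hpos : 0 ≤ F.hw * n * |(F.u none : ℝ)| := by positivity
    linarith [hma.1]
  have hphi : (0 : ℝ) ≤ (Nat.totient (F.u none).natAbs : ℝ) := Nat.cast_nonneg _
  have hmain2 : sT (F.a0 n) (F.NX n none) / (Nat.totient (F.u none).natAbs : ℝ) *
        F3 Fp (z0 D n' + 1) (kz n) (lD n) (F.rd n (z0 D n') none) * qf g ≤
      102 / 100 * (F.hw * n * (F.V n n' / kapD (z0 D n'))) *
        (V (z0 D n' + 1) (kz n) * qf g) := by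
    rw [← mul_assoc (102 / 100 * (F.hw * n * (F.V n n' / kapD (z0 D n'))))]
    refine mul_le_mul_of_nonneg_right ?_ hq
    calc sT (F.a0 n) (F.NX n none) / (Nat.totient (F.u none).natAbs : ℝ) *
          F3 Fp (z0 D n' + 1) (kz n) (lD n) (F.rd n (z0 D n') none)
        ≤ sT (F.a0 n) (F.NX n none) / (Nat.totient (F.u none).natAbs : ℝ) *
          (101 / 100 * (W (F.rd n (z0 D n') none) (PK (2 * D) n') *
            V (z0 D n' + 1) (kz n))) :=
          mul_le_mul_of_nonneg_left hmt (div_nonneg hsT0 hphi)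
      _ = sT (F.a0 n) (F.NX n none) *
          (W (F.rd n (z0 D n') none) (PK (2 * D) n') /
            (Nat.totient (F.u none).natAbs : ℝ)) *
          (101 / 100 * V (z0 D n' + 1) (kz n)) := by ring
      _ = sT (F.a0 n) (F.NX n none) *
          (F.V n n' / (kapD (z0 D n') * |(F.u none : ℝ)|)) *
          (101 / 100 * V (z0 D n' + 1) (kz n)) := by rw [f1 none]
      _ ≤ (1002 / 1000 * (F.hw * n * |(F.u none : ℝ)|)) *
          (F.V n n' / (kapD (z0 D n') * |(F.u none : ℝ)|)) *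
          (101 / 100 * V (z0 D n' + 1) (kz n)) := by
          refine mul_le_mul_of_nonneg_right (mul_le_mul_of_nonneg_right hma.2.1 ?_) ?_
          · positivity
          · positivity
      _ = (101 / 100 * (1002 / 1000)) * (F.hw * n * (F.V n n' / kapD (z0 D n'))) *
          V (z0 D n' + 1) (kz n) := by
          field_simp
      _ ≤ 102 / 100 * (F.hw * n * (F.V n n' / kapD (z0 D n'))) *
          V (z0 D n' + 1) (kz n) := by
          refine mul_le_mul_of_nonneg_right (mul_le_mul_of_nonneg_right (by norm_num) ?_) hV1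
          positivity
  linarith

end Pool.Agent.IS
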