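import Pool.Agent.Lib.MP_bca3e5_nt.IS.Defs
import Mathlib

set_option autoImplicit false

/-!
[IS ad] (helper27): every infinite set of positive even integers contains an admissible sequence.
-/

namespace Pool.Agent.IS

open Finset Filter

/-- The residues along an ultrafilter. -/
private lemma is_ad_res (U : Ultrafilter ℕ) (q : ℕ) :
    ∃ r : ZMod (q + 1), ∀ᶠ a : ℕ in (U : Filter ℕ), (a : ZMod (q + 1)) = r := by
  obtain ⟨r, hr⟩ := Ultrafilter.eq_pure_of_finite (U.map (fun a : ℕ => (a : ZMod (q + 1))))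
  refine ⟨r, ?_⟩
  have h1 : ({r} : Set (ZMod (q + 1))) ∈ U.map (fun a : ℕ => (a : ZMod (q + 1))) := by
    rw [hr]
    exact Ultrafilter.mem_pure.2 rfl
  exact h1

/-- The sequence. -/
private lemma is_ad_seq (C : Set ℕ) (hC : C.Infinite) :
    ∃ (r : ∀ q : ℕ, ZMod (q + 1)) (a : ℕ → ℕ), StrictMono a ∧ ∀ i, a i ∈ C ∧
      ∀ q, q ≤ i + 2 → ((a i : ℕ) : ZMod (q + 1)) = r q := by
  have hne : (cofinite ⊓ 𝓟 C).NeBot := hC.cofinite_inf_principal_neBot
  let U : Ultrafilter ℕ := Ultrafilter.of (cofinite ⊓ 𝓟 C)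
  have hU : (U : Filter ℕ) ≤ cofinite ⊓ 𝓟 C := Ultrafilter.of_le _
  choose r hr using is_ad_res U
  have hev : ∀ i : ℕ, ∀ᶠ x : ℕ in (U : Filter ℕ), x ∈ C ∧
      ∀ q, q ≤ i + 2 → ((x : ℕ) : ZMod (q + 1)) = r q := by
    intro i
    have h1 : ∀ᶠ x : ℕ in (U : Filter ℕ), x ∈ C :=
      (hU.trans inf_le_right) (mem_principal_self C)
    have h2 : ∀ᶠ x : ℕ in (U : Filter ℕ), ∀ q ∈ Finset.range (i + 3),
        ((x : ℕ) : ZMod (q + 1)) = r q :=
      (Filter.eventually_all_finset (Finset.range (i + 3))).2 fun q _ => hr q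
    filter_upwards [h1, h2] with x hx1 hx2
    exact ⟨hx1, fun q hq => hx2 q (Finset.mem_range.2 (by omega))⟩
  have hfr : ∀ i : ℕ, ∃ᶠ x : ℕ in atTop, x ∈ C ∧
      ∀ q, q ≤ i + 2 → ((x : ℕ) : ZMod (q + 1)) = r q := by
    intro i
    rw [← Nat.cofinite_eq_atTop]
    exact (hev i).frequently.filter_mono (hU.trans inf_le_left)
  obtain ⟨a, ha1, ha2⟩ := Filter.extraction_forall_of_frequently hfr
  exact ⟨r, a, ha1, ha2⟩

/-- The final count modulo an odd prime. -/
private lemma is_ad_count (p : ℕ) (hp : p.Prime) (h3 : 3 ≤ p) (a : ℕ → ℕ) (k : ℕ) (r : ZMod p)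
    (hr : ∀ i, p ≤ i + 3 → ((a i : ℕ) : ZMod p) = r)
    (h : ∀ n : ℕ, 1 ≤ n → p ∣ n * ∏ i ∈ range k, (a i * n + 1)) : False := by
  have hfact : Fact p.Prime := ⟨hp⟩
  have hne0 : NeZero p := ⟨hp.ne_zero⟩
  have hx : ∀ x : ZMod p, x ∈ insert (0 : ZMod p) (insert (-r⁻¹)
      ((range (p - 3)).image fun i => -(((a i : ℕ) : ZMod p))⁻¹)) := by
    intro x
    have h1 := h (x.val + p) (by omega)
    have h2 : (((x.val + p) * ∏ i ∈ range k, (a i * (x.val + p) + 1) : ℕ) : ZMod p) = 0 :=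
      (ZMod.natCast_eq_zero_iff _ _).2 h1
    have h3' : (((x.val + p : ℕ)) : ZMod p) = x := by
      rw [Nat.cast_add, ZMod.natCast_self, add_zero, ZMod.natCast_zmod_val]
    rw [Nat.cast_mul, Nat.cast_prod] at h2
    rcases mul_eq_zero.1 h2 with h4 | h4
    · rw [h3'] at h4
      rw [h4]
      exact Finset.mem_insert_self _ _
    · obtain ⟨i, hi, hi0⟩ := Finset.prod_eq_zero_iff.1 h4
      rw [Nat.cast_add, Nat.cast_mul, h3', Nat.cast_one] at hi0
      have hai : ((a i : ℕ) : ZMod p) ≠ 0 := by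
        intro h0
        rw [h0, zero_mul, zero_add] at hi0
        exact one_ne_zero hi0
      have hxe : x = -(((a i : ℕ) : ZMod p))⁻¹ := by
        have h5 : ((a i : ℕ) : ZMod p) * x = -1 := eq_neg_of_add_eq_zero_left hi0
        calc x = (((a i : ℕ) : ZMod p))⁻¹ * (((a i : ℕ) : ZMod p) * x) := by
              rw [← mul_assoc, inv_mul_cancel₀ hai, one_mul]
          _ = -(((a i : ℕ) : ZMod p))⁻¹ := by rw [h5, mul_neg_one]
      by_cases hip : i < p - 3
      · refine Finset.mem_insert_of_mem (Finset.mem_insert_of_mem ?_)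
        rw [hxe]
        exact Finset.mem_image_of_mem (fun i => -(((a i : ℕ) : ZMod p))⁻¹) (Finset.mem_range.2 hip)
      · refine Finset.mem_insert_of_mem ?_
        rw [hxe, hr i (by omega)]
        exact Finset.mem_insert_self _ _
  have hcard : (Finset.univ : Finset (ZMod p)).card ≤ (insert (0 : ZMod p) (insert (-r⁻¹)
      ((range (p - 3)).image fun i => -(((a i : ℕ) : ZMod p))⁻¹))).card :=
    Finset.card_le_card fun x _ => hx x
  have h5 := Finset.card_insert_le (0 : ZMod p) (insert (-r⁻¹)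
      ((range (p - 3)).image fun i => -(((a i : ℕ) : ZMod p))⁻¹))
  have h6 := Finset.card_insert_le (-r⁻¹)
      ((range (p - 3)).image fun i => -(((a i : ℕ) : ZMod p))⁻¹)
  have h7 : ((range (p - 3)).image fun i => -(((a i : ℕ) : ZMod p))⁻¹).card ≤ p - 3 :=
    (Finset.card_image_le).trans (le_of_eq (Finset.card_range _))
  rw [Finset.card_univ, ZMod.card] at hcard
  omega

theorem p_ad : S_ad := by
  intro C hC hpos
  obtain ⟨r, a, ha1, ha2⟩ := is_ad_seq C hC
  refine ⟨a, fun i => (ha2 i).1, ha1.injective, fun i => (hpos _ (ha2 i).1).1, ?_⟩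
  rintro k ⟨p, hp, h⟩
  rcases hp.two_le.eq_or_lt with h2 | h3
  · -- the prime two
    have h1 := h 1 le_rfl
    rw [← h2, one_mul] at h1
    obtain ⟨i, hi, hdi⟩ := (Prime.dvd_finsetProd_iff Nat.prime_two.prime _).1 h1
    have he := (hpos _ (ha2 i).1).2
    obtain ⟨m, hm⟩ := he
    omega
  · obtain ⟨q, rfl⟩ : ∃ q, p = q + 1 := ⟨p - 1, by omega⟩
    exact is_ad_count (q + 1) hp (by omega) a k (r q)
      (fun i hi => (ha2 i).2 q (by omega)) h

end Pool.Agent.IS
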