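import Pool.Agent.Lib.MP_bca3e5_nt.IS.Defs
import Pool.Agent.Lib.MP_0da313_nt.CM.P.fin
import Pool.Agent.Lib.MP_0da313_nt.Poly

set_option autoImplicit false

/-!
Project IS, piece cv: the laws for the numbers `x`, `a i * x + 1` from the laws for families.
-/

namespace Pool.Agent.IS

open Finset Filter Polynomial
open Pool.Agent.BVall (lev)
open Pool.Agent.Lib.MP_0da313_nt (Admissible lineRestrict val eval_lineRestrict)
open Pool.Agent.CM (Fam z0)
open Pool.Agent.RC (Near)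
open Pool.Agent.MT (choose_levS)

private lemma is_cv_irr_lin (a : ℤ) (ha : a ≠ 0) : Irreducible (C a * X + 1 : ℤ[X]) := by
  have hdeg : (C a * X + 1 : ℤ[X]).natDegree = 1 := by
    have h1 : (C a * X + 1 : ℤ[X]) = C a * X + C 1 := by simp
    rw [h1]
    exact natDegree_linear ha
  have key : ∀ f g : ℤ[X], (C a * X + 1 : ℤ[X]) = f * g → f.natDegree = 0 → IsUnit f := by
    intro f g hfg hf
    rw [eq_C_of_natDegree_eq_zero hf] at hfg ⊢
    have h1 := congrArg (fun q : ℤ[X] => q.coeff 0) hfg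
    simp only [coeff_add, coeff_C_mul, coeff_X_zero, mul_zero, coeff_one_zero, zero_add] at h1
    exact (IsUnit.of_mul_eq_one _ h1.symm).map C
  refine ⟨fun hu => ?_, fun f g hfg => ?_⟩
  · have := natDegree_eq_zero_of_isUnit hu
    omega
  · have hne : (C a * X + 1 : ℤ[X]) ≠ 0 := fun h0 => by
      rw [h0, natDegree_zero] at hdeg
      omega
    have hf0 : f ≠ 0 := fun h0 => hne (by rw [hfg, h0, zero_mul])
    have hg0 : g ≠ 0 := fun h0 => hne (by rw [hfg, h0, mul_zero])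
    have h1 := hdeg
    rw [hfg, natDegree_mul hf0 hg0] at h1
    rcases Nat.eq_zero_or_pos f.natDegree with h2 | h2
    · exact Or.inl (key f g hfg h2)
    · exact Or.inr (key g f (by rw [hfg, mul_comm]) (by omega))

/-- the family -/
private noncomputable def is_cv_ff (s : ℕ) (a : ℕ → ℕ) : Fin (s + 1) → MvPolynomial (Fin 2) ℤ :=
  Fin.cons (MvPolynomial.X 0) (fun j => MvPolynomial.C (a j : ℤ) * MvPolynomial.X 0 + 1)

private lemma is_cv_ff_zero (s : ℕ) (a : ℕ → ℕ) : is_cv_ff s a 0 = MvPolynomial.X 0 := rfl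

private lemma is_cv_ff_succ (s : ℕ) (a : ℕ → ℕ) (j : Fin s) :
    is_cv_ff s a j.succ = MvPolynomial.C (a j : ℤ) * MvPolynomial.X 0 + 1 := rfl

private lemma is_cv_val_zero (s : ℕ) (a : ℕ → ℕ) (x y : ℤ) : val (is_cv_ff s a 0) x y = x := by
  rw [is_cv_ff_zero]
  unfold Pool.Agent.Lib.MP_0da313_nt.val
  simp

private lemma is_cv_val_succ (s : ℕ) (a : ℕ → ℕ) (j : Fin s) (x y : ℤ) :
    val (is_cv_ff s a j.succ) x y = a j * x + 1 := by
  rw [is_cv_ff_succ]
  unfold Pool.Agent.Lib.MP_0da313_nt.val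
  simp

private lemma is_cv_lr_zero (s : ℕ) (a : ℕ → ℕ) (n : ℕ) :
    lineRestrict (is_cv_ff s a 0) n = X := by
  rw [is_cv_ff_zero, lineRestrict]
  simp

private lemma is_cv_lr_succ (s : ℕ) (a : ℕ → ℕ) (j : Fin s) (n : ℕ) :
    lineRestrict (is_cv_ff s a j.succ) n = C (a j : ℤ) * X + 1 := by
  rw [is_cv_ff_succ, lineRestrict]
  simp

private lemma is_cv_deg (s : ℕ) (a : ℕ → ℕ) (k : Fin (s + 1)) :
    (is_cv_ff s a k).totalDegree ≤ 1 := by
  refine Fin.cases ?_ (fun j => ?_) k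
  · rw [is_cv_ff_zero]
    exact (MvPolynomial.totalDegree_X _).le
  · rw [is_cv_ff_succ]
    refine (MvPolynomial.totalDegree_add _ _).trans (max_le ?_ ?_)
    · refine (MvPolynomial.totalDegree_mul _ _).trans ?_
      rw [MvPolynomial.totalDegree_C, MvPolynomial.totalDegree_X]
    · rw [MvPolynomial.totalDegree_one]
      exact Nat.zero_le _

private lemma is_cv_adm (s : ℕ) (a : ℕ → ℕ) (ha : Adm a) : Admissible (is_cv_ff s a) := by
  obtain ⟨hinj, hpos, hfix⟩ := ha
  refine ⟨0, fun n _ => ⟨fun k => ?_, fun p hp => ?_⟩⟩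
  · refine Fin.cases ?_ (fun j => ?_) k
    · rw [is_cv_lr_zero]
      exact irreducible_X
    · rw [is_cv_lr_succ]
      exact is_cv_irr_lin _ (by exact_mod_cast (hpos j).ne')
  · intro hall
    refine hfix s ⟨p, hp, fun y _ => ?_⟩
    have h1 := hall y
    rw [Fin.prod_univ_succ, is_cv_lr_zero, eval_X] at h1
    have h2 : ∏ j : Fin s, (lineRestrict (is_cv_ff s a j.succ) n).eval (y : ℤ) =
        ((∏ i ∈ range s, (a i * y + 1) : ℕ) : ℤ) := by
      rw [Nat.cast_prod, Finset.prod_range]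
      refine Finset.prod_congr rfl fun j _ => ?_
      rw [is_cv_lr_succ]
      simp
    rw [h2] at h1
    exact_mod_cast h1

private lemma is_cv_dist (s : ℕ) (a : ℕ → ℕ) (ha : Adm a) (k l : Fin (s + 1)) (hkl : k ≠ l) :
    is_cv_ff s a k ≠ is_cv_ff s a l ∧ is_cv_ff s a k ≠ - is_cv_ff s a l := by
  obtain ⟨hinj, hapos, -⟩ := ha
  have hv : ∀ k, 0 < val (is_cv_ff s a k) 1 0 := by
    intro k
    refine Fin.cases ?_ (fun j => ?_) k
    · rw [is_cv_val_zero]
      exact one_pos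
    · rw [is_cv_val_succ]
      positivity
  have hvinj : ∀ k l, k ≠ l → val (is_cv_ff s a k) 1 0 ≠ val (is_cv_ff s a l) 1 0 := by
    intro k l
    refine Fin.cases ?_ (fun i => ?_) k
    · refine Fin.cases ?_ (fun j => ?_) l
      · intro h
        exact absurd rfl h
      · intro _
        rw [is_cv_val_zero, is_cv_val_succ]
        have := hapos j
        omega
    · refine Fin.cases ?_ (fun j => ?_) l
      · intro _
        rw [is_cv_val_zero, is_cv_val_succ]
        have := hapos i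
        omega
      · intro h
        rw [is_cv_val_succ, is_cv_val_succ]
        intro h2
        apply h
        congr 1
        apply Fin.ext
        apply hinj
        have : (a i : ℤ) = a j := by linarith
        exact_mod_cast this
  refine ⟨fun h => hvinj k l hkl (by rw [h]), fun h => ?_⟩
  have h1 := hv k
  have h2 := hv l
  rw [h] at h1
  have h3 : val (- is_cv_ff s a l) 1 0 = - val (is_cv_ff s a l) 1 0 := by
    unfold Pool.Agent.Lib.MP_0da313_nt.val
    rw [map_neg]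
  rw [h3] at h1
  linarith

/-- [IS cv]. -/
theorem p_cv : S_cv := by
  classical
  intro hfam Pn Ps hFL
  obtain ⟨c, K, hc, hK, hFL⟩ := hFL
  refine ⟨c, K, hc, hK, ?_⟩
  intro a ha k N0 hk
  -- the index set
  let I : Finset (Fin (k + 1)) := (univ : Finset (Fin k)).map (Fin.succEmb k)
  have hmem : ∀ i : Fin k, i.succ ∈ I := fun i => by
    rw [Finset.mem_map]
    exact ⟨i, Finset.mem_univ i, rfl⟩
  have h0I : (0 : Fin (k + 1)) ∉ I := by
    intro h
    rw [Finset.mem_map] at h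
    obtain ⟨j, _, hj⟩ := h
    exact Fin.succ_ne_zero j hj
  have hne : Nonempty {j // j ∈ I} := ⟨⟨(⟨0, hk⟩ : Fin k).succ, hmem _⟩⟩
  let e : {j // j ∈ I} → ℕ := fun j => ((j : Fin (k + 1)) : ℕ) - 1
  have he : Function.Injective e := by
    rintro ⟨i, hi⟩ ⟨j, hj⟩ hij
    have hi0 : (i : ℕ) ≠ 0 := fun h => h0I (by
      have : i = 0 := Fin.ext h
      rwa [← this])
    have hj0 : (j : ℕ) ≠ 0 := fun h => h0I (by
      have : j = 0 := Fin.ext h
      rwa [← this])
    have hij' : (i : ℕ) - 1 = (j : ℕ) - 1 := hij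
    apply Subtype.ext
    apply Fin.ext
    change (i : ℕ) = (j : ℕ)
    omega
  obtain ⟨M, hM1, hFL⟩ := hFL {j // j ∈ I} e he
  have hD : 1 ≤ (k + 1) * 1 := by omega
  obtain ⟨B0, hB0⟩ : ∃ B0, B0 = 128000 * (2 * ((k + 1) * 1)) * (3 * M) := ⟨_, rfl⟩
  have hB01 : 1 ≤ B0 := by
    rw [hB0]
    exact Nat.mul_pos (by omega) (by omega)
  obtain ⟨F, hFh, hFG, hFirr, hFL'⟩ := hfam (k + 1) 1 (by omega) le_rfl (is_cv_ff k a)
    (is_cv_adm k a ha) (is_cv_deg k a) 0 I h0I (fun j _ => is_cv_deg k a j)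
    (fun i _ j _ hij => is_cv_dist k a ha i j hij)
  have hcast : Tendsto (fun n : ℕ => (n : ℝ)) atTop atTop := tendsto_natCast_atTop_atTop
  have ev1 := hcast.eventually (choose_levS (2 * ((k + 1) * 1)) (3 * M) (by omega) (by omega) 0)
  have ev2 := hFL ((k + 1) * 1) B0 hD hB01 F
  have ev3 : ∀ᶠ n : ℕ in atTop, (N0 : ℝ) / (2 * F.hw) ≤ n :=
    hcast.eventually (eventually_ge_atTop _)
  obtain ⟨n, ⟨n', hl1, hl2, hl3, -⟩, h2, h3, hn⟩ :=
    (ev1.and (ev2.and (ev3.and (eventually_ge_atTop F.N0)))).exists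
  have hzB : n ≤ z0 ((k + 1) * 1) n' ^ B0 := by
    unfold z0
    rw [hB0]
    exact_mod_cast hl2
  obtain ⟨w, Y, T, hL⟩ := h2 n' hzB hl1 hl3
  have hhw := F.hhw
  have hN0 : (N0 : ℝ) ≤ 2 * F.hw * n := by
    rw [div_le_iff₀ (by positivity)] at h3
    linarith
  -- the values
  have hv0 : ∀ x : ℕ, (F.L n none (x : ℤ)).natAbs = x := by
    intro x
    rw [hFL' n hn none (x : ℤ)]
    rw [show CM.L.ix (0 : Fin (k + 1)) (none : Option {j // j ∈ I}) = 0 from rfl,
      is_cv_val_zero, Int.natAbs_natCast]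
  have hv1 : ∀ (i : Fin k) (x : ℕ),
      (F.L n (some ⟨i.succ, hmem i⟩) (x : ℤ)).natAbs = a i * x + 1 := by
    intro i x
    rw [hFL' n hn (some ⟨i.succ, hmem i⟩) (x : ℤ)]
    rw [show CM.L.ix (0 : Fin (k + 1)) (some ⟨i.succ, hmem i⟩ : Option {j // j ∈ I}) = i.succ
      from rfl, is_cv_val_succ]
    have : (a i : ℤ) * x + 1 = ((a i * x + 1 : ℕ) : ℤ) := by push_cast; ring
    rw [this, Int.natAbs_natCast]
  refine ⟨n, w, fun i => Y ⟨i.succ, hmem i⟩, fun i => T ⟨i.succ, hmem i⟩, ?_⟩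
  have hσ : ∀ i j : Fin k, i ≠ j →
      (⟨i.succ, hmem i⟩ : {j // j ∈ I}) ≠ ⟨j.succ, hmem j⟩ := by
    intro i j hij h
    exact hij (Fin.succ_injective _ (congrArg Subtype.val h))
  have heσ : ∀ i : Fin k, e ⟨i.succ, hmem i⟩ = i := by
    intro i
    change ((i.succ : Fin (k + 1)) : ℕ) - 1 = i
    rw [Fin.val_succ]
    omega
  refine
    { w0 := hL.w0
      wG := ?_
      w1 := hL.w1
      Y0 := fun i x => hL.Y0 _ x
      YE := ?_
      T0 := ?_
      lo := fun i => hL.lo _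
      up := fun i j hij => hL.up _ _ (hσ i j hij) }
  · intro x hx
    obtain ⟨h4, h5, h6⟩ := hL.wG x hx
    rw [hv0] at h6
    refine ⟨?_, h4, h6⟩
    unfold Pool.Agent.RC.Near at h5
    have h7 := (abs_le.1 h5).1
    have h8 := F.hxi0
    have hn0 : (0 : ℝ) ≤ n := Nat.cast_nonneg n
    have h9 : 4 * F.hw * n ≤ F.xi * n := mul_le_mul_of_nonneg_right h8 hn0
    have h10 : ((x : ℤ) : ℝ) = (x : ℝ) := by norm_num
    rw [h10] at h7
    have h11 : (N0 : ℝ) ≤ x := by nlinarith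
    exact_mod_cast h11
  · intro i x hx hY
    have h4 := hL.YE _ x hx hY
    rwa [hv1] at h4
  · intro i
    have h4 := hL.T0 ⟨i.succ, hmem i⟩
    simp only [heσ] at h4
    exact h4

end Pool.Agent.IS
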