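import Pool.Agent.Lib.MP_bca3e5_nt.IS.Defs
import Pool.Agent.Lib.MP_bca3e5_nt.RC.P.cnt

set_option autoImplicit false

/-!
[IS lC]: the law for a prime in the form `none` and almost primes in the other forms.
-/

namespace Pool.Agent.IS

open Finset Filter
open ArithmeticFunction (cardFactors)
open Pool.Agent.MP89da58 (bil pw nn supp part kapD)
open Pool.Agent.MT (PJf LocD dvI ZI sp)
open Pool.Agent.BVall (om PK lev)
open Pool.Agent.Lib.MP_0da313_nt (Admissible lineRestrict val singV small)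
open Pool.Agent.CH.S (th Pr gd RepC V)
open Pool.Agent.CM (Fam F12 F3 kz ky k3 lD al cv z0)
open Pool.Agent.CM.W (WPk yM)
open Pool.Agent.CM.F (DF qf Par Pre Wts cnt_z_le_lev cnt_z_pos cnt_V cnt_a0 cm_pw1_ev cm_pw1_yM)
open Pool.Agent.RC (sw Rou Near)

theorem is_lC_thw_pos (x : ℕ) : 0 < thw x := by
  unfold thw
  have h1 : 1 ≤ mth x := by
    unfold mth
    exact Nat.log_pos (by norm_num) (by omega)
  have h2 : (0 : ℝ) < mth x := by exact_mod_cast h1
  positivity

/-- A positive lower bound for finitely many positive numbers. -/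
theorem is_lC_min {ι : Type} [Fintype ι] (f : ι → ℝ) (hf : ∀ i, 0 < f i) :
    ∃ t : ℝ, 0 < t ∧ t ≤ 1 ∧ ∀ i, t ≤ f i := by
  classical
  have h : ∀ s : Finset ι, ∃ t : ℝ, 0 < t ∧ t ≤ 1 ∧ ∀ i ∈ s, t ≤ f i := by
    intro s
    induction s using Finset.induction_on with
    | empty => exact ⟨1, one_pos, le_rfl, by simp⟩
    | insert a s _ ih =>
      obtain ⟨t, h1, h2, h3⟩ := ih
      refine ⟨min t (f a), lt_min h1 (hf a), (min_le_left _ _).trans h2, ?_⟩
      intro i hi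
      rcases Finset.mem_insert.1 hi with h | h
      · rw [h]; exact min_le_right _ _
      · exact (min_le_left _ _).trans (h3 i h)
  obtain ⟨t, h1, h2, h3⟩ := h Finset.univ
  exact ⟨t, h1, h2, fun i => h3 i (Finset.mem_univ i)⟩

/-- The law from the sums. -/
theorem is_lC_core {ι : Type} {Gd : ℕ → Prop} {Ev : ι → ℕ → Prop} {c C c1 C1 Y : ℝ}
    {θ T : ι → ℝ} {n : ℕ} (u : ℕ → ℝ) (hY : 0 < Y) (hc : c ≤ 14 / 3000) (hc1 : c ≤ c1)
    (hC : C1 + 1 ≤ C) (hθ : ∀ i, 0 ≤ θ i) (hT0 : ∀ i, 0 < T i)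
    (hT : ∀ i, c1 * θ i ≤ T i) [∀ i, DecidablePred (Ev i)]
    (hu0 : ∀ x, 0 ≤ u x) (huG : ∀ x ∈ Ioo 0 n, u x ≠ 0 → Gd x)
    (h2 : ∑ x ∈ Ioo 0 n, u x ≤ 203 / 100 * Y)
    (h1 : ∀ i, 14 / 1000 * (T i * Y) ≤ ∑ x ∈ Ioo 0 n, u x * (if Ev i x then (1 : ℝ) else 0))
    (h3 : ∀ i k, i ≠ k → ∑ x ∈ Ioo 0 n, u x * ((if Ev i x then (1 : ℝ) else 0) *
      (if Ev k x then (1 : ℝ) else 0)) ≤ 3 * (C1 + 1) * (T i * T k * Y)) :
    Law Gd Ev c C θ n (fun x => if x ∈ Ioo 0 n then u x / (3 * Y) else 0)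
      (fun i x => if Ev i x then (1 : ℝ) else 0) T := by
  classical
  have hY3 : 0 < 3 * Y := by linarith
  have key : ∀ f : ℕ → ℝ, ∑ x ∈ range n, (if x ∈ Ioo 0 n then u x / (3 * Y) else 0) * f x =
      (∑ x ∈ Ioo 0 n, u x * f x) / (3 * Y) := by
    intro f
    rw [Finset.sum_div]
    have hsub : Ioo 0 n ⊆ range n := by
      intro x hx
      rw [Finset.mem_Ioo] at hx
      rw [Finset.mem_range]
      exact hx.2
    rw [← Finset.sum_subset hsub]
    · apply Finset.sum_congr rfl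
      intro x hx
      rw [if_pos hx]
      ring
    · intro x _ hx
      rw [if_neg hx, zero_mul]
  refine ⟨?_, ?_, ?_, ?_, ?_, ?_, ?_, ?_⟩
  · intro x
    split_ifs
    · exact div_nonneg (hu0 x) hY3.le
    · exact le_rfl
  · intro x hx
    by_cases h : x ∈ Ioo 0 n
    · rw [if_pos h] at hx
      apply huG x h
      intro h0
      apply hx
      rw [h0, zero_div]
    · rw [if_neg h] at hx
      exact absurd rfl hx
  · have h := key (fun _ => 1)
    simp only [mul_one] at h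
    rw [h, div_le_one hY3]
    linarith
  · intro i x
    split_ifs <;> norm_num
  · intro i x _ hx
    by_contra hc
    rw [if_neg hc] at hx
    exact hx rfl
  · intro i
    exact (mul_le_mul_of_nonneg_right hc1 (hθ i)).trans (hT i)
  · intro i
    rw [key (fun x => if Ev i x then (1 : ℝ) else 0), le_div_iff₀ hY3]
    have h4 : c * T i ≤ 14 / 3000 * T i := mul_le_mul_of_nonneg_right hc (hT0 i).le
    have h5 := mul_le_mul_of_nonneg_right h4 hY3.le
    have h6 : 14 / 3000 * T i * (3 * Y) = 14 / 1000 * (T i * Y) := by ring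
    linarith [h1 i]
  · intro i k hik
    rw [key (fun x => (if Ev i x then (1 : ℝ) else 0) * (if Ev k x then (1 : ℝ) else 0)),
      div_le_iff₀ hY3]
    have h4 : (C1 + 1) * (T i * T k) ≤ C * (T i * T k) :=
      mul_le_mul_of_nonneg_right hC (mul_pos (hT0 i) (hT0 k)).le
    have h5 := mul_le_mul_of_nonneg_right h4 hY3.le
    have h6 : (C1 + 1) * (T i * T k) * (3 * Y) = 3 * (C1 + 1) * (T i * T k * Y) := by ring
    linarith [h3 i k hik]

/-- `Z` at the points where the form `some i` has no prime factor `< kz n`. -/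
theorem is_lC_rou {ι : Type} [Fintype ι] [DecidableEq ι] {D B0 M n n' : ℕ} (F : Fam ι D)
    {P : Finset ℕ} (hPar : Par F B0 M n n' P) (hM1 : 1 ≤ M) (hn : 1 < n) (x : ℤ) (i : ι)
    (hm0 : 0 < F.L n (some i) x) (hr : Rou (kz n) (F.L n (some i) x).toNat) (j : PJf P) :
    ¬ DF F n P j i x := by
  intro hj
  have hj' := hPar.hP j.1 j.2
  have hj2 : (((j : ℕ) : ℤ)) ∣ F.L n (some i) x := hj
  have hj3 : (j : ℕ) ∣ (F.L n (some i) x).toNat := by
    have : (((j : ℕ) : ℤ)) ∣ ((F.L n (some i) x).toNat : ℤ) := by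
      rw [Int.toNat_of_nonneg hm0.le]
      exact hj2
    exact_mod_cast this
  have h1 := hr (j : ℕ) hj'.1 hj3
  have hnR : (1 : ℝ) < n := by exact_mod_cast hn
  have h9 : ((j : ℕ) : ℝ) ≤ (yM M n : ℝ) := by exact_mod_cast hj'.2.2
  have h10 := cm_pw1_yM (n := n) hM1
  have h11 : (n : ℝ) ^ (1 / 11 : ℝ) ≤ kz n := Nat.le_ceil _
  have h12 : (n : ℝ) ^ (1 / 1000 : ℝ) < (n : ℝ) ^ (1 / 11 : ℝ) :=
    Real.rpow_lt_rpow_of_exponent_lt hnR (by norm_num)
  have h13 : (kz n : ℝ) ≤ ((j : ℕ) : ℝ) := by exact_mod_cast h1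
  linarith

theorem p_lC : S_lC := by
  classical
  intro hwn hnr hpwr hT12 hT3 hS0 hpw3 hsq hpre hpt hP hwin
  obtain ⟨c', C', hc'0, hC'0, hwn⟩ := hwn
  refine ⟨min (14 / 3000) c', C' + 1, lt_min (by norm_num) hc'0, by linarith, ?_⟩
  intro ι _ _ _ ee hee
  obtain ⟨M, hM1, hwn⟩ := hwn ι ee hee
  refine ⟨M, hM1, ?_⟩
  intro D B0 hD hB0 F
  obtain ⟨t0, ht0, ht1, ht2⟩ := is_lC_min (fun i => c' * thw (ee i))
    (fun i => mul_pos hc'0 (is_lC_thw_pos _))
  have hB0r : (1 : ℝ) ≤ B0 := by exact_mod_cast hB0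
  obtain ⟨B, hB⟩ : ∃ B : ℕ, B = B0 ^ (Fintype.card ι + 2) := ⟨_, rfl⟩
  obtain ⟨h, hFh⟩ : ∃ h : ℝ, F.hw = h := ⟨_, rfl⟩
  have hh : 0 < h := by rw [← hFh]; exact F.hhw
  have hwinF := hwin ι D F
  obtain ⟨C, hC1, hC⟩ : ∃ C : ℕ, 1 ≤ C ∧ ∀ᶠ n : ℕ in atTop, ∀ l, 3 * F.X n l < C * n := by
    obtain ⟨C, hC⟩ := exists_nat_gt (∑ l, 3 * (|F.t l| + |(F.c l : ℝ)|))
    refine ⟨C + 1, by omega, ?_⟩
    filter_upwards [eventually_ge_atTop 1] with n hn l
    have hnR : (1 : ℝ) ≤ n := by exact_mod_cast hn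
    have h1 : 3 * (|F.t l| + |(F.c l : ℝ)|) ≤ ∑ l, 3 * (|F.t l| + |(F.c l : ℝ)|) :=
      Finset.single_le_sum (f := fun l => 3 * (|F.t l| + |(F.c l : ℝ)|))
        (fun i _ => by positivity) (Finset.mem_univ l)
    unfold Fam.X
    push_cast
    have h2 := le_abs_self (F.t l)
    have h3 := le_abs_self (F.c l : ℝ)
    have h4 := abs_nonneg (F.c l : ℝ)
    nlinarith
  set c1 : ℝ := ∏ p ∈ small (2 * D), (1 / (p : ℝ)) with hc1
  have hc1pos : 0 < c1 := by
    apply Finset.prod_pos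
    intro p hp
    have hpp : p.Prime := (Finset.mem_filter.mp hp).2
    have : (0 : ℝ) < p := by exact_mod_cast hpp.pos
    positivity
  have hcast : Tendsto (fun n : ℕ => (n : ℝ)) atTop atTop := tendsto_natCast_atTop_atTop
  have evlog : ∀ᶠ n : ℕ in atTop, 1 + 2500 / (t0 ^ 2 * h * c1) ≤ Real.log n :=
    hcast.eventually (Real.tendsto_log_atTop.eventually_ge_atTop _)
  filter_upwards [hT12 ι D F C B0 M B (8 * D + 2) hC1 hD hB0 hM1,
    hT3 ι D F C B0 M B (8 * D + 2) hC1 hD hB0 hM1,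
    hS0 ι D F B0 M B (8 * D + 2) hD hB0 hM1, hpwr ι D F C B0 M hD hB0 hM1 hC,
    hpw3 ι D F C B0 M hD hB0 hM1 hC1,
    hsq ι D F B0 M B (8 * D + 2) hD hB0 hM1, hP ι D F B0 hB0, hwinF.2, hwn B0 hB0, hC, evlog,
    hnr ι D F,
    eventually_ge_atTop (F.N0 + C + 3)] with n hT12 hT3 hS0 hpwr hpw3 hsq hP hwin hwn hC evlog
    hnr hnN
  intro n' hzB hlev hl
  have hn1 : 1 ≤ n := by omega
  have hnR : (1 : ℝ) ≤ n := by exact_mod_cast hn1
  have hn0 : (0 : ℝ) < n := by linarith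
  have hE0 : 0 ≤ 2500 / (t0 ^ 2 * h * c1) := by positivity
  have hlog1 : 1 ≤ Real.log n := by linarith
  -- the parameters
  have hzlev := cnt_z_le_lev D n'
  have hz1 := cnt_z_pos D n'
  have hlev1 : (1 : ℝ) ≤ lev (2 * D) n' := by exact_mod_cast hz1.trans hzlev
  have hzlevR : (z0 D n' : ℝ) ≤ lev (2 * D) n' := by exact_mod_cast hzlev
  have hzM : (z0 D n' : ℝ) ^ M ≤ (n : ℝ) ^ (1 / 1000 : ℝ) := by
    refine le_trans ?_ hlev
    calc (z0 D n' : ℝ) ^ M ≤ (lev (2 * D) n' : ℝ) ^ M := pow_le_pow_left₀ (by positivity) hzlevR _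
      _ ≤ _ := pow_le_pow_right₀ hlev1 (by omega)
  have hlev3 : (lev (2 * D) n' : ℝ) ^ 3 ≤ (n : ℝ) ^ (1 / 1000 : ℝ) :=
    le_trans (pow_le_pow_right₀ hlev1 (by omega)) hlev
  obtain ⟨_, _, P, Ex, hP1, hP2, hP3, hP4⟩ := hP (z0 D n') (yM M n) hzB
  obtain ⟨lam, lami, lam1, lam2, A, T, hWN, hcT⟩ := hwn (z0 D n') hzB hzM P Ex hP1 hP3 hP4
  have hW := hWN.base
  obtain ⟨Fp, Fm, hFp, hFm, hpt', hmt⟩ := hpre (2 * D) (by omega) n'
  have hPre : Pre D n' Fp Fm := ⟨hFp, hFm, hpt', hmt⟩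
  have hPar : Par F B0 M n n' P := ⟨hzB, hlev3, hP1, hP2⟩
  have hBr : (B : ℝ) = (B0 : ℝ) ^ (Fintype.card ι + 2) := by rw [hB]; push_cast; rfl
  have hWts0 : Wts B (yM M n) none none lam := by
    refine ⟨fun α => ?_, hW.sup, fun α _ j i _ => ⟨by simp, by simp⟩⟩
    rw [hBr]
    exact hW.bd α
  have hWts1 : ∀ i, Wts B (yM M n) none (some i) (lami i) := by
    intro i
    refine ⟨fun α => ?_, fun α hα => (hW.supi i α hα).2, fun α hα j i' hj => ⟨by simp, ?_⟩⟩
    · rw [hBr]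
      exact hW.bdi i α
    · intro hii
      have h1 := (hW.supi i α hα).1
      rw [Option.some.inj hii] at hj
      have h2 : j ∈ part α i := by
        unfold part
        simp [hj]
      rw [h1] at h2
      simp at h2
  have hWts1' : ∀ i, Wts B (yM M n) none none (lami i) := fun i =>
    ⟨(hWts1 i).bd, (hWts1 i).sup, fun α _ j i _ => ⟨by simp, by simp⟩⟩
  have hWts2 : ∀ i k, Wts B (yM M n) none none (lam2 i k) := by
    intro i k
    refine ⟨fun α => ?_, hWN.sup2 i k, fun α _ j i _ => ⟨by simp, by simp⟩⟩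
    rw [hBr]
    exact hWN.bd2 i k α
  -- abbreviations
  set z := z0 D n' with hz
  set κ := kapD z with hκ
  have hκ0 : 0 < κ := Pool.Agent.MT.kapD_pos z
  have hκ1 : κ ≤ 1 := Pool.Agent.MT.kapD_le_one z
  have hV := cnt_V F hD (by omega : F.N0 ≤ n) hl
  rw [← hc1] at hV
  have hV0 : 0 < F.V n n' := lt_of_lt_of_le (by positivity) hV
  set Φ : ℝ := F.hw * n * (F.V n n' / κ) with hΦ
  have hΦ0 : 0 < Φ := by rw [hΦ, hFh]; positivity
  set e : ℝ := n / (Real.log n) ^ (8 * D + 2) with he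
  have he0 : 0 ≤ e := by rw [he]; positivity
  have hA1 : 1 ≤ A := hW.one
  have htT : ∀ i, t0 ≤ T i := fun i => (ht2 i).trans (hcT i)
  have hT0 : ∀ i, 0 < T i := fun i => lt_of_lt_of_le ht0 (htT i)
  -- `e` is small
  have hΦe : 2500 * e ≤ t0 ^ 2 * Φ := by
    have h1 : h * n * (c1 * (1 / Real.log n ^ (8 * D))) ≤ Φ := by
      rw [hΦ, hFh]
      apply mul_le_mul_of_nonneg_left _ (by positivity)
      refine hV.trans ?_
      rw [le_div_iff₀ hκ0]
      nlinarith
    refine le_trans ?_ (mul_le_mul_of_nonneg_left h1 (by positivity))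
    have h4 : 2500 / (t0 ^ 2 * h * c1) ≤ Real.log n ^ 2 := by nlinarith
    rw [div_le_iff₀ (by positivity)] at h4
    have h5 : 2500 * e = 2500 * (n / Real.log n ^ (8 * D + 2)) := by
      rw [he]
    have h6 : t0 ^ 2 * (h * n * (c1 * (1 / Real.log n ^ (8 * D)))) =
        Real.log n ^ 2 * (t0 ^ 2 * h * c1) * (n / Real.log n ^ (8 * D + 2)) := by
      rw [pow_add]
      field_simp
    rw [h5, h6]
    exact mul_le_mul_of_nonneg_right h4 (by positivity)
  have ht02 : t0 ^ 2 ≤ t0 := by nlinarith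
  have hΦA : Φ ≤ Φ * A := by nlinarith
  have hΦA0 : 0 < Φ * A := by positivity
  have hsmall0 : 2500 * e ≤ Φ * A := by nlinarith
  have hsmall : ∀ i, 2500 * e ≤ T i * (Φ * A) := by
    intro i
    have h1 : t0 ^ 2 * Φ ≤ T i * Φ := mul_le_mul_of_nonneg_right (ht02.trans (htT i)) hΦ0.le
    have h2 : T i * Φ ≤ T i * (Φ * A) := mul_le_mul_of_nonneg_left hΦA (hT0 i).le
    linarith
  have hsmall2 : ∀ i k, 2500 * e ≤ T i * T k * (Φ * A) := by
    intro i k
    have h0 : t0 ^ 2 ≤ T i * T k := by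
      rw [sq]
      exact mul_le_mul (htT i) (htT k) ht0.le (hT0 i).le
    have h1 : t0 ^ 2 * Φ ≤ T i * T k * Φ := mul_le_mul_of_nonneg_right h0 hΦ0.le
    have h2 : T i * T k * Φ ≤ T i * T k * (Φ * A) :=
      mul_le_mul_of_nonneg_left hΦA (mul_pos (hT0 i) (hT0 k)).le
    linarith
  -- the point functions
  set a : ℕ → ℝ := fun x => F.a0 n (F.L n none (x : ℤ)).toNat with ha
  have hX3 : ∀ x : ℤ, 0 < F.L n none x → F.wi n none (F.L n none x).toNat ≠ 0 →
      (F.L n none x : ℝ) ≤ 3 * F.X n none := fun x h1 h2 => ((hwin.2.1 none x h1 h2).2.2 none).2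
  have hafact := fun x : ℤ => cnt_a0 F hn1 (by omega : C ≤ n) (hC none) hX3 x
  have hpos : ∀ (x : ℕ), a x ≠ 0 → ∀ l, 0 < F.L n l (x : ℤ) := by
    intro x hax l
    obtain ⟨g1, g2, g3⟩ := (hafact (x : ℤ)).2.2 hax
    have g5 := ((hwin.2.1 none (x : ℤ) g1 g3).2.2 l).1
    have g6 := hwin.1 l
    have g7 : (0 : ℝ) < F.L n l (x : ℤ) := by linarith
    exact_mod_cast g7
  set Z : ℕ → ℝ := fun x => ZI (DF F n P) lam (x : ℤ) ^ 2 with hZ
  have hZ0 : ∀ x, 0 ≤ Z x := fun x => sq_nonneg _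
  set w : ℕ → ℝ := fun x => a x * (if F.Rg n z (x : ℤ) then Z x else 0) with hw
  have hw0 : ∀ x, 0 ≤ w x := by
    intro x
    apply mul_nonneg (hafact x).1
    split_ifs
    · exact hZ0 x
    · exact le_rfl
  have hind : ∀ (x : ℕ) (g : ℝ), 0 ≤ g → (if F.Rg n z (x : ℤ) then g else 0) ≤
      Fp (F.ri n (z0 D n') none none (x : ℤ)) * g := by
    intro x g hg
    have h5 := CM.F.cnt_ind F (by omega : F.N0 ≤ n) hPre (x : ℤ)
    calc (if F.Rg n z (x : ℤ) then g else 0) = (if F.Rg n z (x : ℤ) then 1 else 0) * g := by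
          split_ifs <;> simp
      _ ≤ _ := mul_le_mul_of_nonneg_right h5 hg
  -- the total sum
  have h2 : ∑ x ∈ Ioo 0 n, w x ≤ 203 / 100 * (Φ * A) := by
    have h3 := hS0 n' P hPar Fp Fm hPre lam hWts0
    have h4 : ∑ x ∈ Ioo 0 n, w x ≤ ∑ x ∈ Ioo 0 n, F.a0 n (F.L n none x).toNat *
        (Fp (F.ri n (z0 D n') none none x) * ZI (DF F n P) lam x ^ 2) := by
      apply Finset.sum_le_sum
      intro x _
      simp only [hw, ha]
      exact mul_le_mul_of_nonneg_left (hind x (Z x) (hZ0 x)) (hafact x).1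
    have h5 : qf lam ≤ 2 * A := hW.up
    have h6 : 101 / 100 * Φ * qf lam ≤ 101 / 100 * Φ * (2 * A) :=
      mul_le_mul_of_nonneg_left h5 (by positivity)
    calc ∑ x ∈ Ioo 0 n, w x ≤ _ := h4
      _ ≤ 101 / 100 * Φ * qf lam + e := h3
      _ ≤ _ := by linarith
  -- the first moments
  have h1 : ∀ i : ι, 14 / 1000 * (T i * (Φ * A)) ≤ ∑ x ∈ Ioo 0 n, w x *
      (if P2P n (F.L n (some i) (x : ℤ)).natAbs then (1 : ℝ) else 0) := by
    intro i
    have kk1 := hT12 n' P hPar Fp Fm hPre i (lami i) (hWts1 i)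
    have kk3 := hT3 n' P hPar Fp Fm hPre i (lami i) (hWts1 i)
    have kk4 := hsq n' P hPar (lami i) (hWts1' i) i
    have hb : T i * A ≤ V (z + 1) (kz n) * qf (lami i) := hWN.lo i
    have kk2 : ∑ x ∈ Ioo 0 n, F.a0 n (F.L n none x).toNat *
        (F12 Fp Fm (z0 D n' + 1) (kz n) (ky C n) (lD n) (F.ri n (z0 D n') none (some i) x) *
          ZI (DF F n P) (lami i) x ^ 2) ≤
        1 / 2 * (Real.log (3 * F.X n none) * ∑ x ∈ Ioo 0 n, F.a3 C n i (F.L n (some i) x).toNat *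
          (F3 Fp (z0 D n' + 1) (k3 n) (lD n) (F.ri n (z0 D n') (some i) none x) *
            ZI (DF F n P) (lami i) x ^ 2)) +
        (∑ x ∈ Ioo 0 n, w x *
          (if P2P n (F.L n (some i) (x : ℤ)).natAbs then (1 : ℝ) else 0) +
        ∑ x ∈ Ioo 0 n, F.a0 n (F.L n none x).toNat *
          (if F.Rg n (z0 D n') x then ZI (DF F n P) (lami i) x ^ 2 *
            (if ∃ q : ℕ, q.Prime ∧ kz n ≤ q ∧ q ^ 2 ∣ (F.L n (some i) x).toNat then 1 else 0)
            else 0)) := by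
      rw [Finset.mul_sum, Finset.mul_sum, ← Finset.sum_add_distrib, ← Finset.sum_add_distrib]
      apply Finset.sum_le_sum
      intro x _
      have hα0 := (hafact (x : ℤ)).1
      have q1 := hpwr n' P hPar Fp Fm hPre (x : ℤ) i
      have q3 := hpw3 n' P hPar Fp Fm hPre (x : ℤ) i
      have hos : (0 : ℝ) ≤ (if ∃ q : ℕ, q.Prime ∧ kz n ≤ q ∧
          q ^ 2 ∣ (F.L n (some i) x).toNat then (1 : ℝ) else 0) := by
        split_ifs <;> norm_num
      refine le_trans (RC.rc_cnt_pt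
        (om := (if cardFactors (F.L n (some i) (x : ℤ)).toNat ≤ 2 then (1 : ℝ) else 0))
        (F.Rg n (z0 D n') (x : ℤ)) (Rou (kz n) (F.L n (some i) x).toNat) hα0
        (sq_nonneg (ZI (DF F n P) (lami i) (x : ℤ))) hos q1 q3) ?_
      have q5 : a x * ZI (DF F n P) (lami i) (x : ℤ) ^ 2 *
          (if F.Rg n (z0 D n') (x : ℤ) ∧ Rou (kz n) (F.L n (some i) x).toNat then
            (if cardFactors (F.L n (some i) (x : ℤ)).toNat ≤ 2 then (1 : ℝ) else 0)
            else 0) ≤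
          w x * (if P2P n (F.L n (some i) (x : ℤ)).natAbs then (1 : ℝ) else 0) := by
        have hr0 : 0 ≤ w x * (if P2P n (F.L n (some i) (x : ℤ)).natAbs then (1 : ℝ) else 0) := by
          apply mul_nonneg (hw0 x)
          split_ifs <;> norm_num
        by_cases hax : a x = 0
        · rw [hax, zero_mul, zero_mul]
          exact hr0
        · by_cases hc1 : F.Rg n (z0 D n') (x : ℤ) ∧ Rou (kz n) (F.L n (some i) x).toNat
          · rw [if_pos hc1]
            by_cases hc2 : cardFactors (F.L n (some i) (x : ℤ)).toNat ≤ 2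
            · have hm0 := hpos x hax (some i)
              have hna : (F.L n (some i) (x : ℤ)).toNat = (F.L n (some i) (x : ℤ)).natAbs := by
                omega
              have hp2 : P2P n (F.L n (some i) (x : ℤ)).natAbs := by
                rw [← hna]
                exact ⟨hc2, hc1.2⟩
              have hlink : ZI (DF F n P) lam (x : ℤ) = ZI (DF F n P) (lami i) (x : ℤ) :=
                hW.link i (DF F n P) (x : ℤ)
                  (is_lC_rou F hPar hM1 (by omega) (x : ℤ) i hm0 hc1.2)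
              rw [if_pos hc2, if_pos hp2, mul_one, mul_one]
              simp only [hw, hZ]
              rw [if_pos hc1.1, hlink]
            · rw [if_neg hc2, mul_zero]
              exact hr0
          · rw [if_neg hc1, mul_zero]
            exact hr0
      have q6 : 1 / 2 * (Real.log (3 * F.X n none) *
          (F.a3 C n i (F.L n (some i) x).toNat *
          F3 Fp (z0 D n' + 1) (k3 n) (lD n) (F.ri n (z0 D n') (some i) none x)) *
            ZI (DF F n P) (lami i) x ^ 2) = 1 / 2 * (Real.log (3 * F.X n none) *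
          (F.a3 C n i (F.L n (some i) x).toNat *
          (F3 Fp (z0 D n' + 1) (k3 n) (lD n) (F.ri n (z0 D n') (some i) none x) *
            ZI (DF F n P) (lami i) x ^ 2))) := by ring
      rw [q6]
      gcongr
    have kk5 : Φ * (T i * A) ≤ Φ * (V (z + 1) (kz n) * qf (lami i)) :=
      mul_le_mul_of_nonneg_left hb hΦ0.le
    have kk6 : Φ * (T i * A) = T i * (Φ * A) := by ring
    rw [kk6] at kk5
    have kk7 : 0 ≤ T i * (Φ * A) := (mul_pos (hT0 i) hΦA0).le
    have kk8 := hsmall i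
    rw [← hz] at kk2 kk4
    linarith
  -- the second moments
  have h3 : ∀ i k : ι, i ≠ k → ∑ x ∈ Ioo 0 n, w x *
      ((if P2P n (F.L n (some i) (x : ℤ)).natAbs then (1 : ℝ) else 0) *
        (if P2P n (F.L n (some k) (x : ℤ)).natAbs then (1 : ℝ) else 0)) ≤
      3 * (C' + 1) * (T i * T k * (Φ * A)) := by
    intro i k hik
    have h3 := hS0 n' P hPar Fp Fm hPre (lam2 i k) (hWts2 i k)
    have h4 : ∑ x ∈ Ioo 0 n, w x *
      ((if P2P n (F.L n (some i) (x : ℤ)).natAbs then (1 : ℝ) else 0) *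
        (if P2P n (F.L n (some k) (x : ℤ)).natAbs then (1 : ℝ) else 0)) ≤
        ∑ x ∈ Ioo 0 n, F.a0 n (F.L n none x).toNat *
        (Fp (F.ri n (z0 D n') none none x) * ZI (DF F n P) (lam2 i k) x ^ 2) := by
      apply Finset.sum_le_sum
      intro x _
      have hg := sq_nonneg (ZI (DF F n P) (lam2 i k) (x : ℤ))
      have hi2 := hind x _ hg
      have hlhs0 : 0 ≤ (if F.Rg n z (x : ℤ) then ZI (DF F n P) (lam2 i k) (x : ℤ) ^ 2 else 0) := by
        split_ifs
        · exact hg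
        · exact le_rfl
      have hrhs0 : 0 ≤ F.a0 n (F.L n none (x : ℤ)).toNat *
          (Fp (F.ri n (z0 D n') none none (x : ℤ)) * ZI (DF F n P) (lam2 i k) (x : ℤ) ^ 2) :=
        mul_nonneg (hafact x).1 (hlhs0.trans hi2)
      by_cases hax : a x = 0
      · have : w x = 0 := by simp only [hw, hax, zero_mul]
        rw [this, zero_mul]
        exact hrhs0
      by_cases hci : P2P n (F.L n (some i) (x : ℤ)).natAbs
      · by_cases hck : P2P n (F.L n (some k) (x : ℤ)).natAbs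
        · rw [if_pos hci, if_pos hck, mul_one, mul_one]
          have hmi := hpos x hax (some i)
          have hmk := hpos x hax (some k)
          have hni : (F.L n (some i) (x : ℤ)).toNat = (F.L n (some i) (x : ℤ)).natAbs := by
            omega
          have hnk : (F.L n (some k) (x : ℤ)).toNat = (F.L n (some k) (x : ℤ)).natAbs := by
            omega
          have hri : Rou (kz n) (F.L n (some i) (x : ℤ)).toNat := by
            rw [hni]; exact hci.2
          have hrk : Rou (kz n) (F.L n (some k) (x : ℤ)).toNat := by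
            rw [hnk]; exact hck.2
          have hlink := (hWN.link i k hik (DF F n P) (x : ℤ)
            (is_lC_rou F hPar hM1 (by omega) (x : ℤ) i hmi hri)
            (is_lC_rou F hPar hM1 (by omega) (x : ℤ) k hmk hrk)).2
          simp only [hw, hZ, ha]
          rw [← hlink]
          exact mul_le_mul_of_nonneg_left hi2 (hafact x).1
        · rw [if_neg hck, mul_zero, mul_zero]
          exact hrhs0
      · rw [if_neg hci, zero_mul, mul_zero]
        exact hrhs0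
    have h5 : qf (lam2 i k) ≤ C' * (T i * T k * A) := hWN.up2 i k hik
    have h6 : 101 / 100 * Φ * qf (lam2 i k) ≤ 101 / 100 * Φ * (C' * (T i * T k * A)) :=
      mul_le_mul_of_nonneg_left h5 (by positivity)
    have h7 : 101 / 100 * Φ * (C' * (T i * T k * A)) =
        101 / 100 * (C' * (T i * T k * (Φ * A))) := by ring
    have h8 : 0 < T i * T k * (Φ * A) := mul_pos (mul_pos (hT0 i) (hT0 k)) hΦA0
    have h9 : 0 < C' * (T i * T k * (Φ * A)) := mul_pos hC'0 h8
    have h10 := hsmall2 i k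
    calc _ ≤ _ := h4
      _ ≤ 101 / 100 * Φ * qf (lam2 i k) + e := h3
      _ ≤ 3 * (C' * (T i * T k * (Φ * A))) + 3 * (T i * T k * (Φ * A)) := by linarith
      _ = _ := by ring
  refine ⟨_, _, T, is_lC_core (Gd := fun x => x < n ∧ Near F n x ∧ PrP n (F.L n none x).natAbs)
    (Ev := fun i x => P2P n (F.L n (some i) x).natAbs) w hΦA0 (min_le_left _ _) (min_le_right _ _)
    le_rfl (fun i => (is_lC_thw_pos _).le) hT0 hcT hw0 ?_ h2 h1 h3⟩
  intro x hxI hwx
  have hαx : a x ≠ 0 := left_ne_zero_of_mul hwx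
  obtain ⟨g1, g2, g3⟩ := (hafact (x : ℤ)).2.2 hαx
  exact ⟨(Finset.mem_Ioo.1 hxI).2, hnr none (x : ℤ) g1 g3, g2⟩

end Pool.Agent.IS
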