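import Pool.Agent.Lib.MP_bca3e5_nt.IS.Defs
import Pool.Agent.Lib.MP_bca3e5_nt.RC.P.cnt

set_option autoImplicit false

/-!
[IS lR]: the law for the reversed form (the form `none` is a `P_2`, the forms `some i` are primes).
-/

namespace Pool.Agent.IS

open Finset Filter
open ArithmeticFunction (cardFactors)
open Pool.Agent.MP89da58 (bil pw nn supp part kapD)
open Pool.Agent.MT (PJf LocD dvI ZI sp)
open Pool.Agent.BVall (om PK lev mem_PK)
open Pool.Agent.Lib.MP_0da313_nt (Admissible lineRestrict val singV small W)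
open Pool.Agent.CH.S (th Pr gd RepC V)
open Pool.Agent.CM (Fam F12 F3 kz ky k3 lD al cv z0)
open Pool.Agent.CM.W (WPk yM)
open Pool.Agent.CM.F (DF qf Par Pre Wts cnt_z_le_lev cnt_z_pos cnt_V cnt_a0 cm_pw1_ev cm_pw1_yM)
open Pool.Agent.RC (sw Rou Near rc_cnt_V_nonneg rc_cnt_pt)

/-- The law from the sums. -/
theorem is_lR_law {ι : Type} {Gd : ℕ → Prop} {Ev : ι → ℕ → Prop} {θ : ι → ℝ}
    {N : ℕ} (E : Finset ℕ) (hE : ∀ x ∈ E, x < N ∧ Gd x) (Z : ℕ → ℝ) (hZ : ∀ x, 0 ≤ Z x)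
    (a : ι → ℕ → ℝ) (ha0 : ∀ i x, 0 ≤ a i x) {L Ψ c' C' : ℝ} (hL : 0 < L) (hΨ : 0 < Ψ)
    (hC' : 0 < C') (ha2 : ∀ i x, a i x ≤ 2 * L) (hEv : ∀ i, ∀ x ∈ E, a i x ≠ 0 → Ev i x)
    (T : ι → ℝ) (hT0 : ∀ i, 0 ≤ T i) (hθ : ∀ i, 0 ≤ θ i) (hT : ∀ i, c' * θ i ≤ T i)
    (h1 : ∀ i, 14 / 1000 * (T i * Ψ) ≤ ∑ x ∈ E, a i x * Z x)
    (h2 : ∑ x ∈ E, Z x ≤ 121 * Ψ / L)
    (h3 : ∀ i k, i ≠ k → ∑ x ∈ E, a i x * a k x * Z x ≤
      2 * L * ((102 / 100 * C' + 1) * (T i * T k * Ψ))) :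
    Law Gd Ev (min (14 / 242000) c') (C' + 1) θ N
      (fun x => if x ∈ E then Z x * (L / (121 * Ψ)) else 0) (fun i x => a i x / (2 * L)) T := by
  classical
  have hs : 0 < L / (121 * Ψ) := by positivity
  have hsub : E ⊆ range N := fun x hx => Finset.mem_range.2 (hE x hx).1
  have key : ∀ f : ℕ → ℝ, ∑ x ∈ range N, (if x ∈ E then Z x * (L / (121 * Ψ)) else 0) * f x =
      (L / (121 * Ψ)) * ∑ x ∈ E, f x * Z x := by
    intro f
    rw [Finset.mul_sum]
    have e1 : ∀ x ∈ range N, x ∉ E →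
        (if x ∈ E then Z x * (L / (121 * Ψ)) else 0) * f x = 0 := by
      intro x _ hx
      rw [if_neg hx, zero_mul]
    rw [← Finset.sum_subset hsub e1]
    apply Finset.sum_congr rfl
    intro x hx
    rw [if_pos hx]
    ring
  refine ⟨?_, ?_, ?_, ?_, ?_, ?_, ?_, ?_⟩
  · intro x
    split_ifs
    · exact mul_nonneg (hZ x) hs.le
    · exact le_rfl
  · intro x hx
    by_contra hc
    apply hx
    by_cases hxE : x ∈ E
    · exact absurd (hE x hxE).2 hc
    · rw [if_neg hxE]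
  · have e1 := key (fun _ => 1)
    simp only [mul_one, one_mul] at e1
    rw [e1]
    calc L / (121 * Ψ) * ∑ x ∈ E, Z x ≤ L / (121 * Ψ) * (121 * Ψ / L) :=
          mul_le_mul_of_nonneg_left h2 hs.le
      _ = 1 := by field_simp
  · intro i x
    refine ⟨div_nonneg (ha0 i x) (by positivity), ?_⟩
    rw [div_le_one (by positivity)]
    exact ha2 i x
  · intro i x hx hy
    have hxE : x ∈ E := by
      by_contra hc
      exact hx (by rw [if_neg hc])
    apply hEv i x hxE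
    intro h0
    exact hy (by rw [h0, zero_div])
  · intro i
    exact (mul_le_mul_of_nonneg_right (min_le_right _ _) (hθ i)).trans (hT i)
  · intro i
    rw [key (fun x => a i x / (2 * L))]
    have e2 : ∑ x ∈ E, a i x / (2 * L) * Z x = (∑ x ∈ E, a i x * Z x) / (2 * L) := by
      rw [Finset.sum_div]
      apply Finset.sum_congr rfl
      intro x _
      ring
    rw [e2]
    calc min (14 / 242000) c' * T i ≤ 14 / 242000 * T i :=
          mul_le_mul_of_nonneg_right (min_le_left _ _) (hT0 i)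
      _ = L / (121 * Ψ) * ((14 / 1000 * (T i * Ψ)) / (2 * L)) := by
          field_simp
          ring
      _ ≤ _ := by
          apply mul_le_mul_of_nonneg_left _ hs.le
          exact div_le_div_of_nonneg_right (h1 i) (by positivity)
  · intro i k hik
    rw [key (fun x => a i x / (2 * L) * (a k x / (2 * L)))]
    have e2 : ∑ x ∈ E, a i x / (2 * L) * (a k x / (2 * L)) * Z x =
        (∑ x ∈ E, a i x * a k x * Z x) / (2 * L * (2 * L)) := by
      rw [Finset.sum_div]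
      apply Finset.sum_congr rfl
      intro x _
      field_simp
    rw [e2]
    have hTT : 0 ≤ T i * T k := mul_nonneg (hT0 i) (hT0 k)
    calc L / (121 * Ψ) * ((∑ x ∈ E, a i x * a k x * Z x) / (2 * L * (2 * L))) ≤
        L / (121 * Ψ) * ((2 * L * ((102 / 100 * C' + 1) * (T i * T k * Ψ))) / (2 * L * (2 * L))) := by
          apply mul_le_mul_of_nonneg_left _ hs.le
          exact div_le_div_of_nonneg_right (h3 i k hik) (by positivity)
      _ = (102 / 100 * C' + 1) / 242 * (T i * T k) := by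
          field_simp
          ring
      _ ≤ (C' + 1) * (T i * T k) := by
          apply mul_le_mul_of_nonneg_right _ hTT
          linarith

theorem is_lR_thw_pos (x : ℕ) : 0 < thw x := by
  unfold thw
  have h1 : 1 ≤ mth x := by
    unfold mth
    exact Nat.log_pos (by norm_num) (by omega)
  have h2 : (0 : ℝ) < mth x := by exact_mod_cast h1
  positivity

theorem is_lR_t0 {ι : Type} [Fintype ι] [Nonempty ι] (f : ι → ℝ) (hf : ∀ i, 0 < f i) :
    ∃ t0 : ℝ, 0 < t0 ∧ t0 ≤ 1 ∧ ∀ i, t0 ≤ f i := by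
  obtain ⟨i0, -, hi0⟩ := Finset.exists_min_image Finset.univ f Finset.univ_nonempty
  refine ⟨min 1 (f i0), lt_min one_pos (hf i0), min_le_left _ _, ?_⟩
  intro i
  exact (min_le_right _ _).trans (hi0 i (Finset.mem_univ i))

/-- The sieve function is nonnegative, and at least `1` at the sifted points. -/
theorem is_lR_F3 {ι : Type} [Fintype ι] [DecidableEq ι] {D : ℕ} (F : Fam ι D)
    (hpt : CM.S.R_pt) {n n' : ℕ} (hN0 : F.N0 ≤ n) {Fp Fm : (ℕ → ℝ) → ℝ} (hPre : Pre D n' Fp Fm)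
    (l l' : Option ι) (x : ℤ) :
    0 ≤ F3 Fp (z0 D n' + 1) (kz n) (lD n) (F.ri n (z0 D n') l l' x) ∧
    (F.Rg n (z0 D n') x → 0 < F.L n l' x → Rou (kz n) (F.L n l' x).toNat →
      1 ≤ F3 Fp (z0 D n' + 1) (kz n) (lD n) (F.ri n (z0 D n') l l' x)) := by
  classical
  have hρ01 : ∀ p, 0 ≤ F.ri n (z0 D n') l l' x p ∧ F.ri n (z0 D n') l l' x p ≤ 1 := by
    intro p
    unfold Fam.ri
    split_ifs <;> norm_num
  have hPt := hPre.pt (F.ri n (z0 D n') l l' x) (fun p _ => hρ01 p)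
  have h2 := (hpt (PK (2 * D) n') (z0 D n' + 1) 0 0 (kz n) (lD n) Fp Fm
    (F.ri n (z0 D n') l l' x) hρ01 hPt.1 hPt.2).2
  have hWnn : ∀ B : Finset ℕ, 0 ≤ W (F.ri n (z0 D n') l l' x) B := fun B =>
    Finset.prod_nonneg (fun p _ => by linarith [(hρ01 p).2])
  have hF3 := le_trans (mul_nonneg (hWnn _) (hWnn _)) h2
  refine ⟨hF3, ?_⟩
  intro hRg hLpos hRou
  have hLN : ((F.L n l' x).toNat : ℤ) = F.L n l' x := Int.toNat_of_nonneg hLpos.le
  have hρ0 : ∀ p : ℕ, p.Prime → (p ≤ z0 D n' ∨ p < kz n) → F.ri n (z0 D n') l l' x p = 0 := by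
    intro p hp hcond
    unfold Fam.ri
    rw [if_neg]
    rintro ⟨hq, -⟩
    by_cases hpz : p ≤ z0 D n'
    · rw [if_pos hpz] at hq
      refine hRg p hp hpz ?_
      rw [F.hG n hN0 l, Polynomial.eval_mul]
      exact Dvd.dvd.mul_left hq _
    · rw [if_neg hpz, ← hLN] at hq
      have h4 := hRou p hp (by exact_mod_cast hq)
      rcases hcond with h5 | h5
      · exact hpz h5
      · omega
  have hW1 : W (F.ri n (z0 D n') l l' x) (PK (2 * D) n') = 1 := by
    refine Finset.prod_eq_one fun p hp => ?_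
    rw [mem_PK] at hp
    rw [hρ0 p hp.1 (Or.inl hp.2), sub_zero]
  have hW2 : W (F.ri n (z0 D n') l l' x) (Pr (z0 D n' + 1) (kz n)) = 1 := by
    refine Finset.prod_eq_one fun p hp => ?_
    unfold Pr at hp
    rw [Finset.mem_filter, Finset.mem_range] at hp
    rw [hρ0 p hp.2.1 (Or.inr hp.1), sub_zero]
  rw [hW1, hW2, mul_one] at h2
  exact h2

theorem p_lR : S_lR := by
  classical
  intro hwn hU1 hsw hnr hpwr hU0 hvu hT12 hT3 hpw3 hsq hpre hpt hP hwin
  obtain ⟨c', C', hc'0, hC'0, hwn⟩ := hwn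
  refine ⟨min (14 / 242000) c', C' + 1, lt_min (by norm_num) hc'0, by linarith, ?_⟩
  intro ι _ _ _ en hen
  obtain ⟨M, hM1, hwn⟩ := hwn ι en hen
  refine ⟨M, hM1, ?_⟩
  intro D B0 hD hB0 F
  have hB0r : (1 : ℝ) ≤ B0 := by exact_mod_cast hB0
  obtain ⟨B, hB⟩ : ∃ B : ℕ, B = B0 ^ (Fintype.card ι + 2) := ⟨_, rfl⟩
  obtain ⟨t0, ht0, ht01, htle⟩ := is_lR_t0 (fun i : ι => c' * thw (en i))
    (fun i => mul_pos hc'0 (is_lR_thw_pos _))
  obtain ⟨h, hFh⟩ : ∃ h : ℝ, F.hw = h := ⟨_, rfl⟩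
  have hh : 0 < h := by rw [← hFh]; exact F.hhw
  obtain ⟨C, hC1, hC⟩ : ∃ C : ℕ, 1 ≤ C ∧ ∀ᶠ n : ℕ in atTop, ∀ l, 3 * F.X n l < C * n := by
    obtain ⟨C, hC⟩ := exists_nat_gt (∑ l, 3 * (|F.t l| + |(F.c l : ℝ)|))
    refine ⟨C + 1, by omega, ?_⟩
    filter_upwards [eventually_ge_atTop 1] with n hn l
    have hnR : (1 : ℝ) ≤ n := by exact_mod_cast hn
    have h1 : 3 * (|F.t l| + |(F.c l : ℝ)|) ≤ ∑ l, 3 * (|F.t l| + |(F.c l : ℝ)|) :=
      Finset.single_le_sum (f := fun l => 3 * (|F.t l| + |(F.c l : ℝ)|))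
        (fun i _ => by positivity) (Finset.mem_univ l)
    unfold Fam.X
    push_cast
    have h2 := le_abs_self (F.t l)
    have h3 := le_abs_self (F.c l : ℝ)
    have h4 := abs_nonneg (F.c l : ℝ)
    nlinarith
  set c1 : ℝ := ∏ p ∈ small (2 * D), (1 / (p : ℝ)) with hc1
  have hc1pos : 0 < c1 := by
    apply Finset.prod_pos
    intro p hp
    have hpp : p.Prime := (Finset.mem_filter.mp hp).2
    have : (0 : ℝ) < p := by exact_mod_cast hpp.pos
    positivity
  have hcast : Tendsto (fun n : ℕ => (n : ℝ)) atTop atTop := tendsto_natCast_atTop_atTop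
  have evlog : ∀ᶠ n : ℕ in atTop, 1 + 2500 / (t0 ^ 2 * h * c1) ≤ Real.log n :=
    hcast.eventually (Real.tendsto_log_atTop.eventually_ge_atTop _)
  have evkz : ∀ᶠ n : ℕ in atTop, 3 ≤ (n : ℝ) ^ (1 / 11 : ℝ) :=
    ((tendsto_rpow_atTop (by norm_num)).comp hcast).eventually_ge_atTop _
  have hCi : ∀ i : ι, ∀ᶠ n : ℕ in atTop, ∀ l, 3 * (sw F i).X n l < C * n := by
    intro i
    filter_upwards [hC] with n hC
    exact (hsw ι D F i).2.2.1 n _ hC
  have evi : ∀ i : ι, ∀ᶠ n : ℕ in atTop, 3 * ((kz n : ℝ) + ky C n) <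
      (sw F i).t none * n + (sw F i).c none :=
    fun i => cm_pw1_ev C ((hwin ι D (sw F i)).1 none).1
  filter_upwards [eventually_all.2 (fun i => hT12 ι D (sw F i) C B0 M B (8 * D + 2) hC1 hD hB0 hM1),
    eventually_all.2 (fun i => hT3 ι D (sw F i) C B0 M B (8 * D + 2) hC1 hD hB0 hM1),
    hU0 ι D F B0 M B (8 * D + 3) hD hB0 hM1,
    eventually_all.2 (fun i => hpwr ι D (sw F i) C B0 M hD hB0 hM1 (hCi i)),
    eventually_all.2 (fun i => hpw3 ι D (sw F i) C B0 M hD hB0 hM1 hC1),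
    eventually_all.2 (fun i => hU1 ι D (sw F i) B0 M B (8 * D + 2) hD hB0 hM1),
    eventually_all.2 (fun i => hsq ι D (sw F i) B0 M B (8 * D + 2) hD hB0 hM1),
    hP ι D F B0 hB0, eventually_all.2 (fun i => (hwin ι D (sw F i)).2), hwn B0 hB0, hC, evlog,
    eventually_all.2 evi, eventually_all.2 (fun i => hnr ι D (sw F i)), hvu, evkz,
    eventually_ge_atTop (F.N0 + C + 3)] with n hT12 hT3 hU0 hpwr hpw3 hU1 hsq hP hwin hwn hC evlog
    evi hnr hvu evkz hnN
  intro n' hzB hlev hl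
  have hn1 : 1 ≤ n := by omega
  have hnR : (1 : ℝ) ≤ n := by exact_mod_cast hn1
  have hn0 : (0 : ℝ) < n := by linarith
  have hE0 : 0 ≤ 2500 / (t0 ^ 2 * h * c1) := by positivity
  have hlog1 : 1 ≤ Real.log n := by linarith
  have hkz3 : 3 ≤ kz n := by
    have : (n : ℝ) ^ (1 / 11 : ℝ) ≤ kz n := Nat.le_ceil _
    exact_mod_cast evkz.trans this
  -- the parameters
  have hzlev := cnt_z_le_lev D n'
  have hz1 := cnt_z_pos D n'
  have hz2 : 2 ≤ z0 D n' := by
    unfold z0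
    calc 2 = 2 ^ 1 := (pow_one 2).symm
      _ ≤ 2 ^ (2 ^ (2 * D + n')) := Nat.pow_le_pow_right (by norm_num) Nat.one_le_two_pow
  have hlev1 : (1 : ℝ) ≤ lev (2 * D) n' := by exact_mod_cast hz1.trans hzlev
  have hzlevR : (z0 D n' : ℝ) ≤ lev (2 * D) n' := by exact_mod_cast hzlev
  have hzM : (z0 D n' : ℝ) ^ M ≤ (n : ℝ) ^ (1 / 1000 : ℝ) := by
    refine le_trans ?_ hlev
    calc (z0 D n' : ℝ) ^ M ≤ (lev (2 * D) n' : ℝ) ^ M := pow_le_pow_left₀ (by positivity) hzlevR _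
      _ ≤ _ := pow_le_pow_right₀ hlev1 (by omega)
  have hzn : (z0 D n' : ℝ) ≤ (n : ℝ) ^ (1 / 1000 : ℝ) := by
    refine le_trans ?_ hzM
    have : (1 : ℝ) ≤ z0 D n' := by exact_mod_cast hz1
    calc (z0 D n' : ℝ) = (z0 D n' : ℝ) ^ 1 := (pow_one _).symm
      _ ≤ _ := pow_le_pow_right₀ this hM1
  have hlev3 : (lev (2 * D) n' : ℝ) ^ 3 ≤ (n : ℝ) ^ (1 / 1000 : ℝ) :=
    le_trans (pow_le_pow_right₀ hlev1 (by omega)) hlev
  obtain ⟨_, _, P, Ex, hP1, hP2, hP3, hP4⟩ := hP (z0 D n') (yM M n) hzB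
  obtain ⟨lam, lami, lam1, lam2, A, T, hW, hT0'⟩ := hwn (z0 D n') hzB hzM P Ex hP1 hP3 hP4
  obtain ⟨Fp, Fm, hFp, hFm, hptP, hmt⟩ := hpre (2 * D) (by omega) n'
  have hPre : Pre D n' Fp Fm := ⟨hFp, hFm, hptP, hmt⟩
  have hPar : Par F B0 M n n' P := ⟨hzB, hlev3, hP1, hP2⟩
  have hPari : ∀ i, Par (sw F i) B0 M n n' P := fun i => (hsw ι D F i).2.2.2.1 B0 M n n' P hPar
  have hBr : (B : ℝ) = (B0 : ℝ) ^ (Fintype.card ι + 2) := by rw [hB]; push_cast; rfl
  have hWts0 : Wts B (yM M n) none none lam := by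
    refine ⟨fun α => ?_, hW.base.sup, fun α _ j i _ => ⟨by simp, by simp⟩⟩
    rw [hBr]
    exact hW.base.bd α
  have hWtsg : ∀ (i : ι) (g : (PJf P → Option ι) → ℝ), (∀ α, |g α| ≤ (B : ℝ)) →
      (∀ α, g α ≠ 0 → part α i = ∅ ∧ nn (fun j : PJf P => (j : ℕ)) (supp α) ≤ yM M n) →
      Wts B (yM M n) none (some i) g := by
    intro i g hg1 hg2
    refine ⟨hg1, fun α hα => (hg2 α hα).2, fun α hα j i' hj => ⟨by simp, ?_⟩⟩
    intro hii
    have h1 := (hg2 α hα).1
    rw [Option.some.inj hii] at hj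
    have h2 : j ∈ part α i := by
      unfold part
      simp [hj]
    rw [h1] at h2
    simp at h2
  have hWts1 : ∀ i, Wts B (yM M n) none (some i) (lami i) := by
    intro i
    apply hWtsg i (lami i)
    · intro α
      rw [hBr]
      exact hW.base.bdi i α
    · exact hW.base.supi i
  have hWtsU : ∀ i k, Wts B (yM M n) none (some i) (lam1 i k) := by
    intro i k
    apply hWtsg i (lam1 i k)
    · intro α
      rw [hBr]
      exact hW.bd1 i k α
    · exact hW.sup1 i k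
  have hWts2 : ∀ i, Wts B (yM M n) none none (lami i) := fun i =>
    ((hsw ι D F i).2.2.2.2 n B (yM M n) P (lami i) (hWts1 i)).1
  have hZIi : ∀ (i : ι) (x : ℤ), ZI (DF (sw F i) n P) (lami i) x = ZI (DF F n P) (lami i) x :=
    fun i => ((hsw ι D F i).2.2.2.2 n B (yM M n) P (lami i) (hWts1 i)).2
  have hZIU : ∀ (i k : ι) (x : ℤ),
      ZI (DF (sw F i) n P) (lam1 i k) x = ZI (DF F n P) (lam1 i k) x :=
    fun i k => ((hsw ι D F i).2.2.2.2 n B (yM M n) P (lam1 i k) (hWtsU i k)).2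
  have hLs : ∀ (i : ι) (x : ℤ), (sw F i).L n none x = F.L n (some i) x :=
    fun i x => ((hsw ι D F i).1 n x).1
  have hLn : ∀ (i : ι) (x : ℤ), (sw F i).L n (some i) x = F.L n none x :=
    fun i x => ((hsw ι D F i).1 n x).2
  have hRs : ∀ (i : ι) (x : ℤ), (sw F i).Rg n (z0 D n') x ↔ F.Rg n (z0 D n') x :=
    fun i x => Iff.rfl
  have hVs : ∀ i : ι, (sw F i).V n n' = F.V n n' := fun i => rfl
  have hhws : ∀ i : ι, (sw F i).hw = F.hw := fun i => rfl
  have hCis : ∀ i : ι, ∀ l, 3 * (sw F i).X n l < C * n := fun i =>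
    (hsw ι D F i).2.2.1 n _ hC
  -- abbreviations
  set z := z0 D n' with hz
  set κ := kapD z with hκ
  have hκ0 : 0 < κ := Pool.Agent.MT.kapD_pos z
  have hκ1 : κ ≤ 1 := Pool.Agent.MT.kapD_le_one z
  have hκz : κ * Real.log z ≤ 1 := Pool.Agent.MT.kapD_mul_log_le z hz1
  have hV := cnt_V F hD (by omega : F.N0 ≤ n) hl
  rw [← hc1] at hV
  have hV0 : 0 < F.V n n' := lt_of_lt_of_le (by positivity) hV
  set Φ : ℝ := F.hw * n * (F.V n n' / κ) with hΦ
  have hΦ0 : 0 < Φ := by rw [hΦ, hFh]; positivity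
  set e : ℝ := n / (Real.log n) ^ (8 * D + 2) with he
  have he0 : 0 ≤ e := by rw [he]; positivity
  have hA1 : 1 ≤ A := hW.base.one
  have hTt : ∀ i, t0 ≤ T i := fun i => (htle i).trans (hT0' i)
  have hTpos : ∀ i, 0 < T i := fun i => lt_of_lt_of_le ht0 (hTt i)
  -- `e` is small
  have hΦe : 2500 * e ≤ t0 ^ 2 * Φ := by
    have h1 : h * n * (c1 * (1 / Real.log n ^ (8 * D))) ≤ Φ := by
      rw [hΦ, hFh]
      apply mul_le_mul_of_nonneg_left _ (by positivity)
      refine hV.trans ?_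
      rw [le_div_iff₀ hκ0]
      nlinarith
    have h2 : t0 ^ 2 * (h * n * (c1 * (1 / Real.log n ^ (8 * D)))) ≤ t0 ^ 2 * Φ :=
      mul_le_mul_of_nonneg_left h1 (by positivity)
    refine le_trans ?_ h2
    have h4 : 2500 / (t0 ^ 2 * h * c1) ≤ Real.log n ^ 2 := by nlinarith
    rw [div_le_iff₀ (by positivity)] at h4
    have h5 : 2500 * e = 2500 * (n / Real.log n ^ (8 * D + 2)) := by rw [he]
    have h6 : t0 ^ 2 * (h * n * (c1 * (1 / Real.log n ^ (8 * D)))) =
        Real.log n ^ 2 * (t0 ^ 2 * h * c1) * (n / Real.log n ^ (8 * D + 2)) := by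
      rw [pow_add]
      field_simp
    rw [h5, h6]
    exact mul_le_mul_of_nonneg_right h4 (by positivity)
  have ht02 : t0 ^ 2 ≤ t0 := by nlinarith
  have hsmall0 : 2500 * e ≤ Φ := by nlinarith
  have hsmall : ∀ i, 2500 * e ≤ T i * (Φ * A) := by
    intro i
    calc 2500 * e ≤ t0 ^ 2 * Φ := hΦe
      _ ≤ T i * Φ := mul_le_mul_of_nonneg_right (ht02.trans (hTt i)) hΦ0.le
      _ = T i * (Φ * 1) := by ring
      _ ≤ T i * (Φ * A) := by
          apply mul_le_mul_of_nonneg_left _ (hTpos i).le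
          exact mul_le_mul_of_nonneg_left hA1 hΦ0.le
  have hsmall2 : ∀ i k, e ≤ T i * T k * (Φ * A) := by
    intro i k
    have h1 : t0 ^ 2 ≤ T i * T k := by
      calc t0 ^ 2 = t0 * t0 := by ring
        _ ≤ T i * T k := mul_le_mul (hTt i) (hTt k) ht0.le (hTpos i).le
    have h2 : t0 ^ 2 * Φ ≤ T i * T k * Φ := mul_le_mul_of_nonneg_right h1 hΦ0.le
    have h3 : 0 ≤ T i * T k * Φ := mul_nonneg (mul_nonneg (hTpos i).le (hTpos k).le) hΦ0.le
    have h4 : T i * T k * Φ ≤ T i * T k * Φ * A := le_mul_of_one_le_right h3 hA1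
    calc e ≤ T i * T k * Φ * A := by linarith
      _ = _ := by ring
  -- the point functions
  set a : ι → ℕ → ℝ := fun i x => (sw F i).a0 n ((sw F i).L n none (x : ℤ)).toNat with ha
  have hX3 : ∀ i, ∀ x : ℤ, 0 < (sw F i).L n none x →
      (sw F i).wi n none ((sw F i).L n none x).toNat ≠ 0 →
      ((sw F i).L n none x : ℝ) ≤ 3 * (sw F i).X n none :=
    fun i x h1 h2 => (((hwin i).2.1 none x h1 h2).2.2 none).2
  have hafact := fun (i : ι) (x : ℤ) => cnt_a0 (sw F i) hn1 (by omega : C ≤ n) (hCis i none)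
    (hX3 i) x
  set Z : ℕ → ℝ := fun x => ZI (DF F n P) lam (x : ℤ) ^ 2 with hZ
  have hZ0 : ∀ x, 0 ≤ Z x := fun x => sq_nonneg _
  -- linking
  have hnd : ∀ (i : ι) (x : ℕ), a i x ≠ 0 → ∀ j, ¬ DF F n P j i (x : ℤ) := by
    intro i x hax j hj
    obtain ⟨g1, g2, g3⟩ := (hafact i (x : ℤ)).2.2 hax
    have hj' := hPar.hP j.1 j.2
    have hj2 : (((j : ℕ) : ℤ)) ∣ (sw F i).L n none (x : ℤ) := by
      rw [hLs]
      exact hj
    have hj3 : (j : ℕ) ∣ ((sw F i).L n none (x : ℤ)).natAbs := by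
      exact Int.natCast_dvd.1 hj2
    rcases (Nat.dvd_prime g2).1 hj3 with h3 | h3
    · exact hj'.1.one_lt.ne' h3
    · have h4 := (((hwin i).2.1 none (x : ℤ) g1 g3).2.2 none).1
      have h5 := evi i
      have h6 : (sw F i).X n none = (sw F i).t none * n + (sw F i).c none := rfl
      have h7 : ((j : ℕ) : ℝ) = ((sw F i).L n none (x : ℤ) : ℝ) := by
        have h8 : (((j : ℕ) : ℤ)) = (sw F i).L n none (x : ℤ) := by omega
        exact_mod_cast h8
      have h9 : ((j : ℕ) : ℝ) ≤ (yM M n : ℝ) := by exact_mod_cast hj'.2.2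
      have h10 := cm_pw1_yM (n := n) hM1
      have h11 : (n : ℝ) ^ (1 / 11 : ℝ) ≤ kz n := Nat.le_ceil _
      have h12 : (n : ℝ) ^ (1 / 1000 : ℝ) ≤ (n : ℝ) ^ (1 / 11 : ℝ) :=
        Real.rpow_le_rpow_of_exponent_le hnR (by norm_num)
      have h13 : (0 : ℝ) ≤ ky C n := Nat.cast_nonneg _
      have h14 : (0 : ℝ) < ((j : ℕ) : ℝ) := by exact_mod_cast hj'.1.pos
      linarith
  have hlink : ∀ (i : ι) (x : ℕ), a i x ≠ 0 →
      ZI (DF (sw F i) n P) (lami i) (x : ℤ) ^ 2 = Z x := by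
    intro i x hax
    rw [hZIi i]
    have h1 : ZI (DF F n P) lam (x : ℤ) = ZI (DF F n P) (lami i) (x : ℤ) :=
      hW.base.link i _ _ (hnd i x hax)
    rw [hZ]
    simp only
    rw [h1]
  have hlink1 : ∀ (i k : ι), i ≠ k → ∀ (x : ℕ), a i x ≠ 0 → a k x ≠ 0 →
      ZI (DF (sw F i) n P) (lam1 i k) (x : ℤ) ^ 2 = Z x := by
    intro i k hik x hai hak
    rw [hZIU i k]
    have h1 : ZI (DF F n P) (lam1 i k) (x : ℤ) = ZI (DF F n P) lam (x : ℤ) :=
      (hW.link i k hik _ _ (hnd i x hai) (hnd k x hak)).1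
    rw [hZ]
    simp only
    rw [h1]
  -- the set of the good points
  set E : Finset ℕ := (Ioo 0 n).filter (fun x : ℕ => (F.Rg n z x ∧ Near F n x ∧
      Rou (kz n) (F.L n none x).toNat) ∧ cardFactors (F.L n none x).toNat ≤ 2) with hE
  have hEsum : ∑ x ∈ E, Z x ≤ 121 * (Φ * A) / Real.log n := by
    have h1 := hU0 n' P hPar Fp Fm hPre lam hWts0
    have h2 : ∑ x ∈ E, Z x ≤ ∑ x ∈ (Ioo 0 n).filter (fun x : ℕ => F.Rg n (z0 D n') x ∧
        Near F n x ∧ Rou (kz n) (F.L n none x).toNat), ZI (DF F n P) lam x ^ 2 := by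
      apply Finset.sum_le_sum_of_subset_of_nonneg
      · intro x hx
        rw [hE, Finset.mem_filter] at hx
        rw [Finset.mem_filter]
        exact ⟨hx.1, hx.2.1⟩
      · intro x _ _
        exact sq_nonneg _
    refine h2.trans (h1.trans ?_)
    rw [← hz]
    have h3 : qf lam ≤ 2 * A := hW.base.up
    have h4 := hvu z hz2 hzn
    rw [← hκ] at h4
    have h5 : 0 ≤ V (z + 1) (kz n) := rc_cnt_V_nonneg _ _
    have h6 : F.hw * n * F.V n n' = Φ * κ := by rw [hΦ]; field_simp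
    have h7 : (n : ℝ) / Real.log n ^ (8 * D + 3) = e / Real.log n := by
      rw [he, show 8 * D + 3 = (8 * D + 2) + 1 by ring, pow_succ, div_div]
    rw [h6, h7]
    have h8 : V (z + 1) (kz n) * qf lam ≤ V (z + 1) (kz n) * (2 * A) :=
      mul_le_mul_of_nonneg_left h3 h5
    have h9 : 5 * (Φ * κ) * (V (z + 1) (kz n) * qf lam) ≤
        5 * (Φ * κ) * (V (z + 1) (kz n) * (2 * A)) :=
      mul_le_mul_of_nonneg_left h8 (by positivity)
    have h10 : e ≤ Φ * A := by nlinarith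
    have hlog0 : 0 < Real.log n := by linarith
    rw [le_div_iff₀ hlog0, add_mul, div_mul_cancel₀ _ hlog0.ne']
    have h11 : 5 * (Φ * κ) * (V (z + 1) (kz n) * qf lam) * Real.log n ≤
        5 * (Φ * κ) * (V (z + 1) (kz n) * (2 * A)) * Real.log n :=
      mul_le_mul_of_nonneg_right h9 hlog0.le
    have h12 : 5 * (Φ * κ) * (V (z + 1) (kz n) * (2 * A)) * Real.log n =
        10 * (Φ * A) * (V (z + 1) (kz n) * (κ * Real.log n)) := by ring
    have h13 : 10 * (Φ * A) * (V (z + 1) (kz n) * (κ * Real.log n)) ≤ 10 * (Φ * A) * 12 :=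
      mul_le_mul_of_nonneg_left h4 (by positivity)
    linarith
  -- the sums for the single members
  have h1 : ∀ i : ι, 14 / 1000 * (T i * (Φ * A)) ≤ ∑ x ∈ E, a i x * Z x := by
    intro i
    have kk1 := hT12 i n' P (hPari i) Fp Fm hPre i (lami i) (hWts1 i)
    have kk3 := hT3 i n' P (hPari i) Fp Fm hPre i (lami i) (hWts1 i)
    have kk4 := hsq i n' P (hPari i) (lami i) (hWts2 i) i
    have hb : T i * A ≤ V (z + 1) (kz n) * qf (lami i) := hW.lo i
    have kk2 : ∑ x ∈ Ioo 0 n, (sw F i).a0 n ((sw F i).L n none x).toNat *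
        (F12 Fp Fm (z0 D n' + 1) (kz n) (ky C n) (lD n) ((sw F i).ri n (z0 D n') none (some i) x) *
          ZI (DF (sw F i) n P) (lami i) x ^ 2) ≤
        1 / 2 * (Real.log (3 * (sw F i).X n none) *
          ∑ x ∈ Ioo 0 n, (sw F i).a3 C n i ((sw F i).L n (some i) x).toNat *
          (F3 Fp (z0 D n' + 1) (k3 n) (lD n) ((sw F i).ri n (z0 D n') (some i) none x) *
            ZI (DF (sw F i) n P) (lami i) x ^ 2)) +
        (∑ x ∈ E, a i x * Z x +
        ∑ x ∈ Ioo 0 n, (sw F i).a0 n ((sw F i).L n none x).toNat *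
          (if (sw F i).Rg n (z0 D n') x then ZI (DF (sw F i) n P) (lami i) x ^ 2 *
            (if ∃ q : ℕ, q.Prime ∧ kz n ≤ q ∧ q ^ 2 ∣ ((sw F i).L n (some i) x).toNat
              then 1 else 0) else 0)) := by
      rw [hE, Finset.sum_filter, Finset.mul_sum, Finset.mul_sum, ← Finset.sum_add_distrib,
        ← Finset.sum_add_distrib]
      apply Finset.sum_le_sum
      intro x _
      have hα0 := (hafact i (x : ℤ)).1
      have q1 := hpwr i n' P (hPari i) Fp Fm hPre (x : ℤ) i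
      have q3 := hpw3 i n' P (hPari i) Fp Fm hPre (x : ℤ) i
      have hos : (0 : ℝ) ≤ (if ∃ q : ℕ, q.Prime ∧ kz n ≤ q ∧
          q ^ 2 ∣ ((sw F i).L n (some i) x).toNat then (1 : ℝ) else 0) := by
        split_ifs <;> norm_num
      refine le_trans (rc_cnt_pt
        (om := (if cardFactors ((sw F i).L n (some i) (x : ℤ)).toNat ≤ 2 then (1 : ℝ) else 0))
        ((sw F i).Rg n (z0 D n') (x : ℤ)) (Rou (kz n) ((sw F i).L n (some i) x).toNat) hα0
        (sq_nonneg (ZI (DF (sw F i) n P) (lami i) (x : ℤ))) hos q1 q3) ?_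
      have q5 : a i x * ZI (DF (sw F i) n P) (lami i) (x : ℤ) ^ 2 *
          (if (sw F i).Rg n (z0 D n') (x : ℤ) ∧ Rou (kz n) ((sw F i).L n (some i) x).toNat then
            (if cardFactors ((sw F i).L n (some i) (x : ℤ)).toNat ≤ 2 then (1 : ℝ) else 0)
            else 0) ≤
          (if (F.Rg n z x ∧ Near F n x ∧ Rou (kz n) (F.L n none x).toNat) ∧
            cardFactors (F.L n none x).toNat ≤ 2 then a i x * Z x else 0) := by
        by_cases hax : a i x = 0
        · rw [hax]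
          split_ifs <;> simp
        · rw [hlink i x hax]
          obtain ⟨g1, g2, g3⟩ := (hafact i (x : ℤ)).2.2 hax
          have g4 : Near F n (x : ℤ) := hnr i none (x : ℤ) g1 g3
          rw [hLn i (x : ℤ)]
          by_cases hc1 : (sw F i).Rg n (z0 D n') (x : ℤ) ∧ Rou (kz n) (F.L n none x).toNat
          · rw [if_pos hc1]
            by_cases hc2 : cardFactors (F.L n none (x : ℤ)).toNat ≤ 2
            · rw [if_pos hc2, if_pos ⟨⟨hc1.1, g4, hc1.2⟩, hc2⟩, mul_one]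
            · rw [if_neg hc2, mul_zero]
              split_ifs
              · exact mul_nonneg hα0 (hZ0 x)
              · exact le_rfl
          · rw [if_neg hc1, mul_zero]
            split_ifs
            · exact mul_nonneg hα0 (hZ0 x)
            · exact le_rfl
      have q6 : 1 / 2 * (Real.log (3 * (sw F i).X n none) *
          ((sw F i).a3 C n i ((sw F i).L n (some i) x).toNat *
          F3 Fp (z0 D n' + 1) (k3 n) (lD n) ((sw F i).ri n (z0 D n') (some i) none x)) *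
            ZI (DF (sw F i) n P) (lami i) x ^ 2) = 1 / 2 * (Real.log (3 * (sw F i).X n none) *
          ((sw F i).a3 C n i ((sw F i).L n (some i) x).toNat *
          (F3 Fp (z0 D n' + 1) (k3 n) (lD n) ((sw F i).ri n (z0 D n') (some i) none x) *
            ZI (DF (sw F i) n P) (lami i) x ^ 2))) := by ring
      rw [q6]
      gcongr
    rw [hVs i, hhws i] at kk1 kk3
    have kk5 : Φ * (T i * A) ≤ Φ * (V (z + 1) (kz n) * qf (lami i)) :=
      mul_le_mul_of_nonneg_left hb hΦ0.le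
    have kk6 : Φ * (T i * A) = T i * (Φ * A) := by ring
    rw [kk6] at kk5
    have kk7 : 0 ≤ T i * (Φ * A) := mul_nonneg (hTpos i).le (by positivity)
    have kk8 := hsmall i
    rw [← hz] at kk1 kk2 kk3 kk4
    linarith
  have hELpos : ∀ x : ℕ, Rou (kz n) (F.L n none (x : ℤ)).toNat → 0 < F.L n none (x : ℤ) := by
    intro x hR
    by_contra hc
    have h2 : (F.L n none (x : ℤ)).toNat = 0 := by omega
    rw [h2] at hR
    have h3 := hR 2 Nat.prime_two (dvd_zero _)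
    omega
  -- the second moments
  have h3 : ∀ i k, i ≠ k → ∑ x ∈ E, a i x * a k x * Z x ≤
      2 * Real.log n * ((102 / 100 * C' + 1) * (T i * T k * (Φ * A))) := by
    intro i k hik
    have kk1 := hU1 i n' P (hPari i) Fp Fm hPre i (lam1 i k) (hWtsU i k)
    rw [hVs i, hhws i] at kk1
    have kk2 : V (z + 1) (kz n) * qf (lam1 i k) ≤ C' * (T i * T k * A) := hW.up1 i k hik
    have kk3 : Φ * (V (z + 1) (kz n) * qf (lam1 i k)) ≤ Φ * (C' * (T i * T k * A)) :=
      mul_le_mul_of_nonneg_left kk2 hΦ0.le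
    have hlog0 : 0 < Real.log n := by linarith
    have kk4 : ∑ x ∈ E, a i x * a k x * Z x ≤ 2 * Real.log n *
        ∑ x ∈ Ioo 0 n, (sw F i).a0 n ((sw F i).L n none x).toNat *
          (F3 Fp (z + 1) (kz n) (lD n) ((sw F i).ri n z none (some i) x) *
            ZI (DF (sw F i) n P) (lam1 i k) x ^ 2) := by
      rw [hE, Finset.sum_filter, Finset.mul_sum]
      apply Finset.sum_le_sum
      intro x _
      obtain ⟨hf0, hf1⟩ := is_lR_F3 (sw F i) hpt (n := n) (n' := n')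
        (show (sw F i).N0 ≤ n by have : (sw F i).N0 = F.N0 := rfl
                                 omega) hPre none (some i) (x : ℤ)
      rw [← hz] at hf0 hf1
      have hα0 : 0 ≤ a i x := (hafact i (x : ℤ)).1
      have hα1 : 0 ≤ a k x := (hafact k (x : ℤ)).1
      have hα2 : a k x ≤ 2 * Real.log n := (hafact k (x : ℤ)).2.1
      have hR0 : 0 ≤ 2 * Real.log n * ((sw F i).a0 n ((sw F i).L n none (x : ℤ)).toNat *
          (F3 Fp (z + 1) (kz n) (lD n) ((sw F i).ri n z none (some i) x) *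
            ZI (DF (sw F i) n P) (lam1 i k) x ^ 2)) :=
        mul_nonneg (by positivity) (mul_nonneg hα0 (mul_nonneg hf0 (sq_nonneg _)))
      split_ifs with hxE
      swap
      · exact hR0
      by_cases hai : a i x = 0
      · rw [hai, zero_mul, zero_mul]
        exact hR0
      by_cases hak : a k x = 0
      · rw [hak, mul_zero, zero_mul]
        exact hR0
      rw [hlink1 i k hik x hai hak]
      have hf2 : 1 ≤ F3 Fp (z + 1) (kz n) (lD n) ((sw F i).ri n z none (some i) x) := by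
        apply hf1 hxE.1.1
        · rw [hLn i]
          exact hELpos x hxE.1.2.2
        · rw [hLn i]
          exact hxE.1.2.2
      have hm1 : a i x * a k x * Z x ≤ a i x * (2 * Real.log n) * Z x :=
        mul_le_mul_of_nonneg_right (mul_le_mul_of_nonneg_left hα2 hα0) (hZ0 x)
      have hm2 : 2 * Real.log n * (a i x * (1 * Z x)) ≤ 2 * Real.log n * (a i x *
          (F3 Fp (z + 1) (kz n) (lD n) ((sw F i).ri n z none (some i) x) * Z x)) := by
        apply mul_le_mul_of_nonneg_left _ (by positivity)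
        apply mul_le_mul_of_nonneg_left _ hα0
        exact mul_le_mul_of_nonneg_right hf2 (hZ0 x)
      calc a i x * a k x * Z x ≤ 2 * Real.log n * (a i x * (1 * Z x)) := by linarith
        _ ≤ _ := hm2
    refine kk4.trans ?_
    apply mul_le_mul_of_nonneg_left _ (by positivity)
    refine kk1.trans ?_
    have kk5 := hsmall2 i k
    have kk6 : 102 / 100 * Φ * (V (z + 1) (kz n) * qf (lam1 i k)) ≤
        102 / 100 * C' * (T i * T k * (Φ * A)) := by
      calc 102 / 100 * Φ * (V (z + 1) (kz n) * qf (lam1 i k)) =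
          102 / 100 * (Φ * (V (z + 1) (kz n) * qf (lam1 i k))) := by ring
        _ ≤ 102 / 100 * (Φ * (C' * (T i * T k * A))) :=
            mul_le_mul_of_nonneg_left kk3 (by norm_num)
        _ = _ := by ring
    linarith
  -- the law
  refine ⟨_, _, T, is_lR_law E ?_ Z hZ0 a (fun i x => (hafact i (x : ℤ)).1) (L := Real.log n)
    (Ψ := Φ * A) (c' := c') (C' := C') (by linarith) (by positivity) hC'0
    (fun i x => (hafact i (x : ℤ)).2.1) ?_ T (fun i => (hTpos i).le)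
    (fun i => (is_lR_thw_pos _).le) hT0' h1 hEsum h3⟩
  · intro x hx
    rw [hE, Finset.mem_filter, Finset.mem_Ioo] at hx
    have hp := hELpos x hx.2.1.2.2
    have hna : (F.L n none (x : ℤ)).toNat = (F.L n none (x : ℤ)).natAbs := by omega
    refine ⟨hx.1.2, hx.1.2, hx.2.1.2.1, ?_, ?_⟩
    · rw [← hna]
      exact hx.2.2
    · rw [← hna]
      exact hx.2.1.2.2
  · intro i x _ hax
    have h2 := ((hafact i (x : ℤ)).2.2 hax).2.1
    rw [hLs i] at h2
    exact h2

end Pool.Agent.IS
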