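import Pool.Agent.Lib.MP_bca3e5_nt.IS.N4
import Pool.Agent.Lib.MP_0da313_nt.CM.W
import Pool.Agent.Lib.MP_0da313_nt.MT.MainN

set_option autoImplicit false
set_option linter.unusedSectionVars false

/-!
Project IS: proof of `S_wn` (existence of the weights).
-/

namespace Pool.Agent.IS

open Finset Filter
open Pool.Agent.MP89da58 (bil pw nn supp part kapD)
open Pool.Agent.MT (PJf ZI)
open Pool.Agent.CH.S (V)
open Pool.Agent.CM (kz)
open Pool.Agent.CM.W (WPk yM)

/-- the constant of the lower bound -/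
noncomputable def cw : ℝ := 1 / (100 * 512000 * 1048576 * 2000)

theorem cw_pos : 0 < cw := by unfold cw; norm_num

/-- The numerical part of the lower bound. -/
private theorem is_wn_num {m W pw2 M κ Ly L0 Ln Lz A1 A2 V1 : ℝ} (hm : 1 ≤ m) (hpw2 : 0 < pw2)
    (hW : W = pw2 * m ^ 3) (hM : 0 < M) (hκ : 0 < κ) (hL0 : 0 < L0)
    (hLy : Ly = M / (1048576 * W) * L0)
    (hA1 : m * κ * Ly / 8 ≤ A1) (hA2 : A2 ≤ 2000 * κ * Ly) (hA20 : 0 < A2)
    (hLn : Ln ≤ 2000 * M * L0) (hV0 : 0 < V1)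
    (hV : 10 * Lz ≤ V1 * Ln) (hLz : 1 ≤ 1000 * κ * Lz) :
    cw * (1 / (pw2 * m)) ≤ V1 * A1 ^ 2 / (4 * A2) := by
  have hm0 : 0 < m := by linarith only [hm]
  have hW0 : 0 < W := by rw [hW]; positivity
  have hLy0 : 0 < Ly := by rw [hLy]; positivity
  rw [le_div_iff₀ (by positivity)]
  have h1 : (m * κ * Ly / 8) ^ 2 ≤ A1 ^ 2 := pow_le_pow_left₀ (by positivity) hA1 2
  have h2 : V1 * (m * κ * Ly / 8) ^ 2 ≤ V1 * A1 ^ 2 := mul_le_mul_of_nonneg_left h1 hV0.le
  refine le_trans ?_ h2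
  have h3 : cw * (1 / (pw2 * m)) * (4 * A2) ≤ cw * (1 / (pw2 * m)) * (4 * (2000 * κ * Ly)) := by
    apply mul_le_mul_of_nonneg_left _ (mul_nonneg cw_pos.le (by positivity))
    linarith only [hA2]
  refine h3.trans ?_
  -- 1/100 ≤ V1 κ Ln ≤ 2000 V1 κ M L0
  have h4 : 1 / 100 ≤ V1 * κ * (2000 * M * L0) := by
    have h5 : κ * (10 * Lz) ≤ κ * (V1 * Ln) := mul_le_mul_of_nonneg_left hV hκ.le
    have h6 : V1 * κ * Ln ≤ V1 * κ * (2000 * M * L0) :=
      mul_le_mul_of_nonneg_left hLn (by positivity)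
    nlinarith only [h5, h6, hLz]
  have h7 : κ * Ly * (1 / 100) ≤ κ * Ly * (V1 * κ * (2000 * M * L0)) :=
    mul_le_mul_of_nonneg_left h4 (by positivity)
  have h8 : M * L0 = Ly * (1048576 * W) := by
    rw [hLy]
    field_simp
  have e1 : cw * (1 / (pw2 * m)) * (4 * (2000 * κ * Ly)) =
      (cw * 800000 / (pw2 * m)) * (κ * Ly * (1 / 100)) := by ring
  rw [e1]
  have h9 : (cw * 800000 / (pw2 * m)) * (κ * Ly * (1 / 100)) ≤
      (cw * 800000 / (pw2 * m)) * (κ * Ly * (V1 * κ * (2000 * M * L0))) :=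
    mul_le_mul_of_nonneg_left h7 (div_nonneg (mul_nonneg cw_pos.le (by norm_num)) (by positivity))
  refine h9.trans (le_of_eq ?_)
  have e2 : V1 * κ * (2000 * M * L0) = V1 * κ * 2000 * (Ly * (1048576 * W)) := by
    rw [← h8]; ring
  rw [e2, hW]
  unfold cw
  field_simp
  ring

/-- The numerical part of the upper bounds. -/
private theorem is_wn_num2 {a1 a2 AA A2i A2k Pr V1 G0T b e T : ℝ} (hV0 : 0 < V1)
    (hA2i : 0 < A2i) (hA2k : 0 < A2k) (hPr : 0 ≤ Pr) (hG : 0 < G0T)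
    (hVG : 1 / 3200000 ≤ V1 * G0T) (hAA : AA = A2i * (A2k * Pr))
    (hb : b ≤ 4 * (a1 * a2) ^ 2 / G0T * Pr + e) (hV1 : V1 ≤ 1) (he : e ≤ T) (he0 : 0 ≤ e)
    (hT : T = V1 * a1 ^ 2 / (4 * A2i) * (V1 * a2 ^ 2 / (4 * A2k)) * AA) :
    V1 * b ≤ (64 * 3200000 ^ 2 + 1) * T := by
  have hT0 : 0 ≤ T := he0.trans he
  have h1 : V1 * b ≤ V1 * (4 * (a1 * a2) ^ 2 / G0T * Pr) + V1 * e := by
    rw [← mul_add]
    exact mul_le_mul_of_nonneg_left hb hV0.le
  have h2 : V1 * e ≤ T := by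
    refine le_trans ?_ he
    calc V1 * e ≤ 1 * e := mul_le_mul_of_nonneg_right hV1 he0
      _ = e := one_mul _
  have hTe : T = V1 ^ 2 * (a1 * a2) ^ 2 * Pr / 16 := by
    rw [hT, hAA]
    field_simp
    ring
  have h3 : V1 * (4 * (a1 * a2) ^ 2 / G0T * Pr) ≤ 64 * 3200000 * T := by
    rw [hTe]
    have e1 : V1 * (4 * (a1 * a2) ^ 2 / G0T * Pr) =
        (4 * V1 * (a1 * a2) ^ 2 * Pr / G0T) * 1 := by ring
    have e2 : 64 * 3200000 * (V1 ^ 2 * (a1 * a2) ^ 2 * Pr / 16) =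
        (4 * V1 * (a1 * a2) ^ 2 * Pr / G0T) * (3200000 * (V1 * G0T)) := by
      field_simp
      ring
    rw [e1, e2]
    apply mul_le_mul_of_nonneg_left _ (by positivity)
    linarith only [hVG]
  nlinarith only [h1, h2, h3, hT0]

private theorem is_wn_num3 {a1 a2 AA A2i A2k Pr V1 G0T b e T : ℝ} (hV0 : 0 < V1)
    (hA2i : 0 < A2i) (hA2k : 0 < A2k) (hPr : 0 ≤ Pr) (hG : 0 < G0T)
    (hVG : 1 / 3200000 ≤ V1 * G0T) (hAA : AA = A2i * (A2k * Pr))
    (hb : b ≤ 4 * (a1 * a2) ^ 2 / (G0T * G0T) * Pr + e) (he : e ≤ T)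
    (hT : T = V1 * a1 ^ 2 / (4 * A2i) * (V1 * a2 ^ 2 / (4 * A2k)) * AA) :
    b ≤ (64 * 3200000 ^ 2 + 1) * T := by
  have hTe : T = V1 ^ 2 * (a1 * a2) ^ 2 * Pr / 16 := by
    rw [hT, hAA]
    field_simp
    ring
  have h3 : 4 * (a1 * a2) ^ 2 / (G0T * G0T) * Pr ≤ 64 * 3200000 ^ 2 * T := by
    rw [hTe]
    have e1 : 4 * (a1 * a2) ^ 2 / (G0T * G0T) * Pr =
        (4 * (a1 * a2) ^ 2 * Pr / (G0T * G0T)) * 1 := by ring
    have e2 : 64 * 3200000 ^ 2 * (V1 ^ 2 * (a1 * a2) ^ 2 * Pr / 16) =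
        (4 * (a1 * a2) ^ 2 * Pr / (G0T * G0T)) * (3200000 * (V1 * G0T)) ^ 2 := by
      field_simp
      ring
    rw [e1, e2]
    apply mul_le_mul_of_nonneg_left _ (by positivity)
    have h4 : 1 ≤ 3200000 * (V1 * G0T) := by linarith only [hVG]
    exact one_le_pow₀ h4
  linarith only [hb, h3, he]

section

variable {ι : Type} [Fintype ι] [DecidableEq ι]

/-- The product which defines the level. -/
def Mw (e : ι → ℕ) : ℕ := ∏ l, Wt (e l)

theorem Mw_pos (e : ι → ℕ) : 1 ≤ Mw e :=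
  Nat.one_le_iff_ne_zero.2 (Finset.prod_ne_zero_iff.2 fun l _ => by
    have := Wt_pos (e l)
    omega)

theorem Wt_dvd (e : ι → ℕ) (l : ι) : Wt (e l) ∣ Mw e := Finset.dvd_prod_of_mem _ (Finset.mem_univ l)

/-- The scales. -/
def ex (e : ι → ℕ) (l : ι) : ℕ := Mw e / Wt (e l)

theorem ex_mul (e : ι → ℕ) (l : ι) : ex e l * Wt (e l) = Mw e := Nat.div_mul_cancel (Wt_dvd e l)

theorem ex_pos (e : ι → ℕ) (l : ι) : 1 ≤ ex e l := by
  by_contra h
  have h0 : ex e l = 0 := by omega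
  have h1 := ex_mul e l
  rw [h0, zero_mul] at h1
  have := Mw_pos e
  omega

theorem ex_two (e : ι → ℕ) (l : ι) : ex e l * 2 ^ mth (e l) ≤ Mw e := by
  rw [← ex_mul e l]
  apply Nat.mul_le_mul_left
  unfold Wt
  exact Nat.le_mul_of_pos_right _ (pow_pos (mth_pos _) 3)

end

/-- The error term for the change of the quadratic form. -/
private theorem is_wn_err {ι : Type} [Fintype ι] [DecidableEq ι] (hpr : CM.W.R_pr)
    (hbp : CM.W.R_bp) (B0 : ℕ) (hB0 : 1 ≤ B0) (M : ℕ) (δ : ℝ) (hδ : 0 < δ) :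
    ∀ᶠ n : ℕ in atTop, ∀ z : ℕ, 2 ≤ z → n ≤ z ^ B0 →
      ((yM M n : ℕ) : ℝ) ≤ (n : ℝ) ^ (1 / 1000 : ℝ) → ∀ P : Finset ℕ,
      (∀ p ∈ P, p.Prime ∧ z < p ∧ p ≤ yM M n) → ∀ f : (PJf P → Option ι) → ℝ,
      (∀ α, |f α| ≤ (B0 : ℝ) ^ (Fintype.card ι + 2)) →
      (∀ α, f α ≠ 0 → nn (fun j : PJf P => (j : ℕ)) (supp α) ≤ yM M n) →
      |bil (fun j : PJf P => 1 / (((j : ℕ) : ℝ) - 1)) f f -
        bil (fun j : PJf P => 1 / ((j : ℕ) : ℝ)) f f| ≤ δ := by
  classical
  set K := Fintype.card ι with hKdef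
  obtain ⟨C, hC, hCpr⟩ := hpr (3 * K)
  have hB0r : (1 : ℝ) ≤ B0 := by exact_mod_cast hB0
  have hc1 : (0 : ℝ) < δ / (4 * C * (B0 : ℝ) ^ (2 * (K + 2))) := by positivity
  have hlo := (isLittleO_log_rpow_rpow_atTop (((3 * K + 1 : ℕ) : ℝ))
    (show (0 : ℝ) < 1 / (B0 : ℝ) by positivity)).def hc1
  have hlo' := tendsto_natCast_atTop_atTop (R := ℝ) |>.eventually hlo
  filter_upwards [hlo', eventually_ge_atTop 100000] with n hnl hn5 z hz2' hz hYn P hP f hbd hsupp
  have hn5r : (100000 : ℝ) ≤ n := by exact_mod_cast hn5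
  have hn0 : (0 : ℝ) < n := by linarith only [hn5r]
  have hzr : (2 : ℝ) ≤ z := by exact_mod_cast hz2'
  have hln1 : 1 ≤ Real.log n := by
    rw [Real.le_log_iff_exp_le hn0]
    linarith only [hn5r, Real.exp_one_lt_d9]
  have hPz : ∀ p ∈ P, p.Prime ∧ z < p := fun p hp => ⟨(hP p hp).1, (hP p hp).2.1⟩
  have hYn1 : ((yM M n : ℕ) : ℝ) ≤ n := by
    refine hYn.trans ?_
    calc (n : ℝ) ^ (1 / 1000 : ℝ) ≤ (n : ℝ) ^ (1 : ℝ) :=
          Real.rpow_le_rpow_of_exponent_le (by linarith only [hn5r]) (by norm_num)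
      _ = n := Real.rpow_one _
  have h2 := hbp ι P z hz2' (fun p hp => (hPz p hp).2) f ((B0 : ℝ) ^ (K + 2))
    (2 * Real.log n) (yM M n) hbd hsupp (by
      have h3 : ((yM M n * yM M n : ℕ) : ℝ) ≤ n := by
        push_cast
        calc ((yM M n : ℕ) : ℝ) * ((yM M n : ℕ) : ℝ) ≤
              (n : ℝ) ^ (1 / 1000 : ℝ) * (n : ℝ) ^ (1 / 1000 : ℝ) :=
              mul_le_mul hYn hYn (Nat.cast_nonneg _) (by positivity)
          _ = (n : ℝ) ^ (1 / 1000 + 1 / 1000 : ℝ) := by rw [Real.rpow_add hn0]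
          _ ≤ (n : ℝ) ^ (1 : ℝ) :=
              Real.rpow_le_rpow_of_exponent_le (by linarith only [hn5r]) (by norm_num)
          _ = n := Real.rpow_one _
      refine h3.trans ?_
      rw [Real.rpow_def_of_pos (by norm_num : (0 : ℝ) < 2)]
      conv_lhs => rw [← Real.exp_log hn0]
      apply Real.exp_le_exp.2
      have h4 := Real.log_two_gt_d9
      have h5 : 1 / 2 * Real.log n ≤ Real.log 2 * Real.log n :=
        mul_le_mul_of_nonneg_right (by linarith only [h4]) (by linarith only [hln1])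
      linarith only [h5]) (by linarith only [hln1])
  rw [← hKdef] at h2
  have h3 : ∏ j : PJf P, (1 + (3 * K : ℝ) * (1 / (((j : ℕ) : ℝ) - 1))) ≤
      C * (Real.log n) ^ (3 * K) := by
    refine le_trans ?_ (hCpr n (by omega))
    rw [Finset.prod_coe_sort P (fun p : ℕ => (1 + (3 * K : ℝ) * (1 / ((p : ℝ) - 1))))]
    have h4 : ∀ p : ℕ, 1 + (3 * K : ℝ) * (1 / ((p : ℝ) - 1)) =
        1 + ((3 * K : ℕ) : ℝ) / ((p : ℝ) - 1) := by
      intro p
      push_cast
      ring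
    rw [Finset.prod_congr rfl fun p _ => h4 p]
    apply Finset.prod_le_prod_of_subset_of_one_le
    · intro p hp
      rw [Finset.mem_filter, Finset.mem_Icc]
      refine ⟨⟨(hPz p hp).1.one_le, ?_⟩, (hPz p hp).1⟩
      have h5 : ((p : ℕ) : ℝ) ≤ n := by
        refine le_trans ?_ hYn1
        exact_mod_cast (hP p hp).2.2
      exact_mod_cast h5
    · intro p hp
      have h5 : (2 : ℝ) ≤ p := by exact_mod_cast (hPz p hp).1.two_le
      have h6 : 0 ≤ ((3 * K : ℕ) : ℝ) / ((p : ℝ) - 1) :=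
        div_nonneg (Nat.cast_nonneg _) (by linarith only [h5])
      linarith only [h6]
    · intro p hp _
      rw [Finset.mem_filter] at hp
      have h5 : (2 : ℝ) ≤ p := by exact_mod_cast hp.2.two_le
      have h6 : 0 ≤ ((3 * K : ℕ) : ℝ) / ((p : ℝ) - 1) :=
        div_nonneg (Nat.cast_nonneg _) (by linarith only [h5])
      linarith only [h6]
  have h4 : (n : ℝ) ^ (1 / (B0 : ℝ)) ≤ z := by
    have h5 : (n : ℝ) ≤ (z : ℝ) ^ B0 := by exact_mod_cast hz
    calc (n : ℝ) ^ (1 / (B0 : ℝ)) ≤ ((z : ℝ) ^ B0) ^ (1 / (B0 : ℝ)) :=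
          Real.rpow_le_rpow hn0.le h5 (by positivity)
      _ = z := by
          rw [← Real.rpow_natCast, ← Real.rpow_mul (by linarith only [hzr])]
          rw [mul_one_div_cancel (by linarith only [hB0r]), Real.rpow_one]
  have h5 : (Real.log n) ^ (3 * K + 1) ≤ δ / (4 * C * (B0 : ℝ) ^ (2 * (K + 2))) * z := by
    have h6 : ‖Real.log (n : ℝ) ^ (((3 * K + 1 : ℕ) : ℝ))‖ ≤
        δ / (4 * C * (B0 : ℝ) ^ (2 * (K + 2))) * ‖(n : ℝ) ^ (1 / (B0 : ℝ))‖ := hnl
    rw [Real.rpow_natCast, Real.norm_of_nonneg (by positivity),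
      Real.norm_of_nonneg (by positivity)] at h6
    exact h6.trans (mul_le_mul_of_nonneg_left h4 hc1.le)
  refine h2.trans ?_
  have hz0 : (0 : ℝ) < z := by linarith only [hzr]
  calc ((B0 : ℝ) ^ (K + 2)) ^ 2 * ((2 / z) * (2 * Real.log n) *
        ∏ j : PJf P, (1 + (3 * K : ℝ) * (1 / (((j : ℕ) : ℝ) - 1)))) ≤
        ((B0 : ℝ) ^ (K + 2)) ^ 2 *
          ((2 / z) * (2 * Real.log n) * (C * (Real.log n) ^ (3 * K))) := by
        apply mul_le_mul_of_nonneg_left _ (by positivity)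
        apply mul_le_mul_of_nonneg_left h3
        have : 0 ≤ Real.log n := by linarith only [hln1]
        positivity
    _ = (4 * C * (B0 : ℝ) ^ (2 * (K + 2))) / z * (Real.log n) ^ (3 * K + 1) := by
        field_simp
        ring
    _ ≤ (4 * C * (B0 : ℝ) ^ (2 * (K + 2))) / z *
          (δ / (4 * C * (B0 : ℝ) ^ (2 * (K + 2))) * z) :=
        mul_le_mul_of_nonneg_left h5 (by positivity)
    _ = δ := by field_simp

theorem p_wn : S_wn := by
  intro hv1 hpr hbp
  refine ⟨cw, 64 * 3200000 ^ 2 + 1, cw_pos, by norm_num, ?_⟩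
  intro ι _ _ _ e he
  classical
  set K := Fintype.card ι with hKdef
  have hK1 : 1 ≤ K := Fintype.card_pos
  set M0 := Mw e with hM0
  have hM01 : 1 ≤ M0 := Mw_pos e
  set M := 1048576 * M0 with hMdef
  have hM1 : 1 ≤ M := by omega
  have hthw : ∀ i, thw (e i) = 1 / ((2 : ℝ) ^ mth (e i) * mth (e i)) := fun _ => rfl
  have hthw0 : ∀ i, 0 < thw (e i) := by
    intro i
    rw [hthw]
    have : (1 : ℝ) ≤ mth (e i) := by exact_mod_cast mth_pos (e i)
    positivity
  have hthw1 : ∀ i, cw * thw (e i) ≤ 1 := by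
    intro i
    rw [hthw]
    have h1 : (1 : ℝ) ≤ mth (e i) := by exact_mod_cast mth_pos (e i)
    have h2 : (1 : ℝ) ≤ 2 ^ mth (e i) := one_le_pow₀ (by norm_num)
    have h3 : 1 / ((2 : ℝ) ^ mth (e i) * mth (e i)) ≤ 1 := by
      rw [div_le_one (by positivity)]
      nlinarith only [h1, h2]
    have h4 : cw ≤ 1 := by unfold cw; norm_num
    calc cw * (1 / ((2 : ℝ) ^ mth (e i) * mth (e i))) ≤ 1 * 1 :=
          mul_le_mul h4 h3 (by positivity) (by norm_num)
      _ = 1 := by norm_num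
  set δ : ℝ := ∏ l, (cw * thw (e l)) with hδdef
  have hδ0 : 0 < δ := Finset.prod_pos fun l _ => mul_pos cw_pos (hthw0 l)
  have hδ1 : δ ≤ 1 := Finset.prod_le_one (fun l _ => (mul_pos cw_pos (hthw0 l)).le)
    fun l _ => hthw1 l
  have hδik : ∀ i k, i ≠ k → δ ≤ (cw * thw (e i)) * (cw * thw (e k)) := by
    intro i k hik
    rw [hδdef, ← Finset.mul_prod_erase Finset.univ _ (Finset.mem_univ i),
      ← Finset.mul_prod_erase (Finset.univ.erase i) _
      (Finset.mem_erase.mpr ⟨Ne.symm hik, Finset.mem_univ k⟩)]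
    apply mul_le_mul_of_nonneg_left _ (mul_pos cw_pos (hthw0 i)).le
    calc (cw * thw (e k)) * ∏ l ∈ (Finset.univ.erase i).erase k, (cw * thw (e l)) ≤
          (cw * thw (e k)) * 1 := by
          apply mul_le_mul_of_nonneg_left _ (mul_pos cw_pos (hthw0 k)).le
          exact Finset.prod_le_one (fun l _ => (mul_pos cw_pos (hthw0 l)).le) fun l _ => hthw1 l
      _ = _ := mul_one _
  refine ⟨M, hM1, ?_⟩
  intro B0 hB0
  have hB0r : (1 : ℝ) ≤ B0 := by exact_mod_cast hB0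
  have hlog1 : ∀ᶠ n : ℕ in atTop, 2000 * M * Real.log 2 ≤ Real.log (n : ℝ) :=
    (Real.tendsto_log_atTop.comp (tendsto_natCast_atTop_atTop (R := ℝ))).eventually_ge_atTop _
  filter_upwards [hv1 B0 hB0, is_wn_err (ι := ι) hpr hbp B0 hB0 M δ hδ0, hlog1,
    eventually_ge_atTop 100000,
    eventually_ge_atTop ((16 * (K + 2) ^ 2) ^ B0)] with n hnv hnerr hlogn hn5 hn16 z hz hz2 P Ex hP
    hEx1 hEx2
  have hn5r : (100000 : ℝ) ≤ n := by exact_mod_cast hn5
  have hn0 : (0 : ℝ) < n := by linarith only [hn5r]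
  have hz16 : 16 * (K + 2) ^ 2 ≤ z := by
    by_contra h
    push Not at h
    have h1 : z ^ B0 < (16 * (K + 2) ^ 2) ^ B0 := Nat.pow_lt_pow_left h (by omega)
    omega
  have hz2' : 2 ≤ z := by
    have h1 : 1 ≤ (K + 2) ^ 2 := Nat.one_le_pow _ _ (by omega)
    omega
  have hzr : (2 : ℝ) ≤ z := by exact_mod_cast hz2'
  set y : ℕ := ⌊(n : ℝ) ^ (1 / (1000 * M) : ℝ)⌋₊ with hy
  have hyMdef : yM M n = y ^ M := rfl
  obtain ⟨hzy, hyM, hLy, _⟩ := Pool.Agent.MT.size_y (D := 0) hM1 hn5r (by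
    rw [zero_add, one_mul]; exact hz2) (by omega) (le_refl z) hy hlogn
  have hy2 : 2 ≤ y := hz2'.trans hzy
  have hyr : (2 : ℝ) ≤ y := by exact_mod_cast hy2
  have hLy0 : 0 < Real.log y := Real.log_pos (by linarith only [hyr])
  have hlz0 : 0 < Real.log z := Real.log_pos (by linarith only [hzr])
  have hln1 : 1 ≤ Real.log n := by
    rw [Real.le_log_iff_exp_le hn0]
    linarith only [hn5r, Real.exp_one_lt_d9]
  set κ : ℝ := kapD z with hκdef
  have hκ : 0 < κ := Pool.Agent.MT.kapD_pos z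
  have hκlz : κ * Real.log z ≤ 1 := Pool.Agent.MT.kapD_mul_log_le z (by omega)
  have hlogB : Real.log n ≤ B0 * Real.log z := by
    rw [← Real.log_pow]
    apply Real.log_le_log hn0
    exact_mod_cast hz
  have hκn : κ * Real.log n ≤ B0 := by
    calc κ * Real.log n ≤ κ * (B0 * Real.log z) := mul_le_mul_of_nonneg_left hlogB hκ.le
      _ = B0 * (κ * Real.log z) := by ring
      _ ≤ B0 * 1 := mul_le_mul_of_nonneg_left hκlz (Nat.cast_nonneg _)
      _ = B0 := mul_one _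
  have hPz : ∀ p ∈ P, p.Prime ∧ z < p := fun p hp => ⟨(hP p hp).1, (hP p hp).2.1⟩
  have hzn : (z : ℝ) ≤ (n : ℝ) ^ (1 / 1000 : ℝ) :=
    (le_self_pow₀ (by linarith only [hzr]) (by omega)).trans hz2
  obtain ⟨hV10, hV1⟩ := hnv z hz hzn
  set V1 : ℝ := V (z + 1) (kz n) with hV1def
  have hV0 : 0 < V1 := by
    by_contra h
    push Not at h
    have h1 : V1 * Real.log n ≤ 0 :=
      mul_nonpos_of_nonpos_of_nonneg h (by linarith only [hln1])
    linarith only [h1, hV10, hlz0]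
  have hmert := Pool.Agent.MT.mertens z hz2'
  rw [← hκdef] at hmert
  -- the data
  set R := y ^ (524288 * M0) with hR
  set Tt := y ^ (262144 * M0) with hTt
  let S : ND ι (PJf P) := mkN P z R (fun l => mth (e l)) (fun l => y ^ ex e l)
    (fun l => Nat.one_le_pow _ _ (by omega)) hPz (fun l => by
      rw [hR, ← pow_mul]
      apply Nat.pow_le_pow_right (by omega)
      have h1 := ex_two e l
      rw [← hM0] at h1
      calc ex e l * (2 * 2 ^ mth (e l)) = 2 * (ex e l * 2 ^ mth (e l)) := by ring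
        _ ≤ 2 * M0 := Nat.mul_le_mul_left 2 h1
        _ ≤ 524288 * M0 := by omega) (by rw [← hKdef]; exact hz16)
  have hSp : ∀ j, S.p j = (j : ℕ) := fun _ => rfl
  have hSR : S.R = R := rfl
  have hSg : ∀ l, S.g l = Pool.Agent.MP89da58.gfun (mth (e l)) (y ^ ex e l) := fun _ => rfl
  have hpj : S.p = fun j : PJf P => (j : ℕ) := funext hSp
  have hxj : S.x = fun j : PJf P => 1 / ((j : ℕ) : ℝ) := by
    funext j
    unfold ND.x
    rw [hSp]
  have hxj' : S.x' = fun j : PJf P => 1 / (((j : ℕ) : ℝ) - 1) := by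
    funext j
    unfold ND.x'
    rw [hSp]
  -- the values of `G0`
  have hG : ∀ ee : ℕ, 1 ≤ ee → ee ≤ M → κ * (ee * Real.log y) / 4 ≤ S.G0 (y ^ ee) ∧
      S.G0 (y ^ ee) ≤ 1000 * κ * (ee * Real.log y) := by
    intro ee hee heM
    rw [S.G0_eq hSp]
    have hye : y ≤ y ^ ee := Nat.le_self_pow (by omega) y
    have hlog : Real.log ((y ^ ee : ℕ) : ℝ) = ee * Real.log y := by
      push_cast
      rw [Real.log_pow]
    constructor
    · have h1 := Pool.Agent.MT.g0_lower P z (y ^ ee) (Nat.one_le_pow _ _ (by omega)) Ex (by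
        intro p hp hzp hpe
        exact hEx1 p hp hzp (hpe.trans (by
          rw [hyMdef]
          exact Nat.pow_le_pow_right (by omega) heM))) hEx2
      rw [hlog] at h1
      exact h1
    · have h1 := Pool.Agent.MT.g0_upper P z hPz (y ^ ee) (hy2.trans hye) (hzy.trans hye)
      rw [hlog] at h1
      exact h1
  have hMr0 : (0 : ℝ) < M := by exact_mod_cast hM1
  have hMLy : M * Real.log y ≤ Real.log n / 1000 := by
    have h1 := Real.log_le_log (by positivity) hyM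
    rw [Real.log_rpow hn0, Real.log_pow] at h1
    linarith only [h1]
  have hG0B : ∀ ee : ℕ, 1 ≤ ee → ee ≤ M → S.G0 (y ^ ee) ≤ B0 := by
    intro ee hee heM
    refine (hG ee hee heM).2.trans ?_
    have h1 : (ee : ℝ) * Real.log y ≤ M * Real.log y :=
      mul_le_mul_of_nonneg_right (by exact_mod_cast heM) hLy0.le
    calc 1000 * κ * (ee * Real.log y) ≤ 1000 * κ * (Real.log n / 1000) :=
          mul_le_mul_of_nonneg_left (h1.trans hMLy) (by positivity)
      _ = κ * Real.log n := by ring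
      _ ≤ B0 := hκn
  have hG00 : ∀ T, 0 ≤ S.G0 T := by
    intro T
    unfold ND.G0
    refine Finset.sum_nonneg fun a _ => ?_
    exact mul_nonneg (Pool.Agent.MP89da58.pw_nonneg (fun j => (S.x_pos j).le) a)
      (Pool.Agent.MP89da58.tau_nonneg _ _)
  -- the one-dimensional sums
  have hod : ∀ l, (mth (e l) : ℝ) * κ * (ex e l * Real.log y) / 8 ≤ S.A1 l ∧ S.A1 l ≤ B0 ∧
      κ * (ex e l * Real.log y) / 4 ≤ S.A2 l ∧ S.A2 l ≤ 2000 * κ * (ex e l * Real.log y) ∧
      S.B1 l ≤ ((mth (e l) : ℝ) + 1) * (1000 * κ * (ex e l * Real.log y) ^ 2) := by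
    intro l
    have hexp := ex_pos e l
    have hex2 := ex_two e l
    rw [← hM0] at hex2
    have hyl : y ≤ y ^ ex e l := Nat.le_self_pow (by omega) y
    have hlog : Real.log ((y ^ ex e l : ℕ) : ℝ) = ex e l * Real.log y := by
      push_cast
      rw [Real.log_pow]
    have h1 := S.one_dim l (mth (e l)) (y ^ ex e l) κ hκ (hy2.trans hyl) (hSg l) (by
      intro k hk
      rw [← pow_mul, hlog]
      have h2 : ex e l * 2 ^ k ≤ M := by
        calc ex e l * 2 ^ k ≤ ex e l * 2 ^ mth (e l) :=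
              Nat.mul_le_mul_left _ (Nat.pow_le_pow_right (by norm_num) hk)
          _ ≤ M0 := hex2
          _ ≤ M := by omega
      have h3 := hG (ex e l * 2 ^ k) (Nat.mul_pos hexp (by positivity)) h2
      push_cast at h3
      have e1 : (ex e l : ℝ) * 2 ^ k * Real.log y = 2 ^ k * (ex e l * Real.log y) := by ring
      rw [e1] at h3
      exact h3)
    rw [hlog] at h1
    refine ⟨h1.1, h1.2.1.trans ?_, h1.2.2⟩
    rw [← pow_mul]
    exact hG0B _ (Nat.mul_pos hexp (by positivity)) (by omega)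
  have hA21 : ∀ l, 1 ≤ S.A2 l := fun l => S.A2_ge_one l
  have hA20 : ∀ l, 0 < S.A2 l := fun l => S.A2_pos l
  have hA10 : ∀ l, 0 ≤ S.A1 l := fun l => S.A1_nonneg l
  -- the products
  set AA : ℝ := ∏ l, S.A2 l with hAA
  have hAA1 : 1 ≤ AA := Finset.one_le_prod fun l _ => hA21 l
  -- supports and bounds
  have hRM : S.R ≤ yM M n := by
    rw [hSR, hR, hyMdef]
    exact Nat.pow_le_pow_right (by omega) (by omega)
  have hYn : ((yM M n : ℕ) : ℝ) ≤ (n : ℝ) ^ (1 / 1000 : ℝ) := by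
    rw [hyMdef]; push_cast; exact hyM
  have hKK : (B0 : ℝ) ^ K ≤ (B0 : ℝ) ^ (K + 2) := pow_le_pow_right₀ hB0r (by omega)
  have hGR : S.G0 S.R ^ K ≤ (B0 : ℝ) ^ (K + 2) := by
    refine le_trans (pow_le_pow_left₀ (hG00 _) ?_ K) hKK
    rw [hSR, hR]
    exact hG0B _ (by omega) (by omega)
  have hbd : ∀ α, |S.lam α| ≤ (B0 : ℝ) ^ (K + 2) := fun α => (S.abs_lam_le α).trans hGR
  have hsupp : ∀ α, S.lam α ≠ 0 → nn (fun j : PJf P => (j : ℕ)) (supp α) ≤ yM M n := by
    intro α hα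
    have h1 := S.lam_support α hα
    rw [hpj] at h1
    exact h1.trans hRM
  have hTt1 : 1 ≤ Tt := Nat.one_le_pow _ _ (by omega)
  have hbdt : ∀ i k, i ≠ k → ∀ T1 : ℕ, 1 ≤ T1 → (T1 = 1 ∨ T1 = Tt) → ∀ α,
      |S.lamt i k T1 Tt α| ≤ (B0 : ℝ) ^ (K + 2) := by
    intro i k hik T1 hT1 hT1' α
    refine (S.abs_lamt_le i k hik T1 Tt hT1 hTt1 α).trans ?_
    have h1 : S.G0 (S.R * (T1 * Tt)) ≤ B0 := by
      rcases hT1' with h | h
      · rw [h, one_mul, hSR, hR, hTt, ← pow_add]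
        exact hG0B _ (by omega) (by omega)
      · rw [h, hSR, hR, hTt, ← pow_add, ← pow_add]
        exact hG0B _ (by omega) (by omega)
    rw [← hKdef]
    calc S.A1 i * S.A1 k * S.G0 (S.R * (T1 * Tt)) ^ K ≤ (B0 * B0) * (B0 : ℝ) ^ K := by
          apply mul_le_mul _ (pow_le_pow_left₀ (hG00 _) h1 K) (pow_nonneg (hG00 _) _)
            (by positivity)
          exact mul_le_mul (hod i).2.1 (hod k).2.1 (hA10 k) (by positivity)
      _ = (B0 : ℝ) ^ (K + 2) := by ring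
  have hsuppt : ∀ i k, i ≠ k → ∀ T1 : ℕ, (T1 = 1 ∨ T1 = Tt) → ∀ α,
      S.lamt i k T1 Tt α ≠ 0 → nn (fun j : PJf P => (j : ℕ)) (supp α) ≤ yM M n := by
    intro i k hik T1 hT1' α hα
    have h1 := S.lamt_support i k hik T1 Tt α hα
    rw [hpj] at h1
    refine h1.trans ?_
    rw [hyMdef]
    rcases hT1' with h | h
    · rw [h, one_mul, hSR, hR, hTt, ← pow_add]
      exact Nat.pow_le_pow_right (by omega) (by omega)
    · rw [h, hSR, hR, hTt, ← pow_add, ← pow_add]
      exact Nat.pow_le_pow_right (by omega) (by omega)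
  -- the lower bounds
  have hR1 : 1 < Real.log S.R := by
    rw [hSR, hR]
    push_cast
    rw [Real.log_pow]
    have h2 : Real.log 2 ≤ Real.log y := Real.log_le_log (by norm_num) hyr
    have h3 : (2 : ℝ) ≤ ((524288 * M0 : ℕ) : ℝ) := by
      have : 2 ≤ 524288 * M0 := by omega
      exact_mod_cast this
    have h4 := Real.log_two_gt_d9
    calc (1 : ℝ) < 2 * Real.log 2 := by linarith only [h4]
      _ ≤ ((524288 * M0 : ℕ) : ℝ) * Real.log y :=
          mul_le_mul h3 h2 (by linarith only [h4]) (by linarith only [h3])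
  have hexr : ∀ l, (ex e l : ℝ) = M0 / Wt (e l) := by
    intro l
    have h1 := ex_mul e l
    rw [← hM0] at h1
    have h2 : (0 : ℝ) < Wt (e l) := by exact_mod_cast Wt_pos (e l)
    rw [eq_div_iff h2.ne']
    exact_mod_cast h1
  have hBsum : 16 * ∑ l, S.B1 l / S.A2 l ≤ Real.log S.R := by
    have h1 : ∀ l ∈ (Finset.univ : Finset ι), S.B1 l / S.A2 l ≤
        4000 * (M0 * Real.log y) * (((mth (e l) : ℝ) + 1) / Wt (e l)) := by
      intro l _
      obtain ⟨_, _, h2, _, h3⟩ := hod l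
      rw [div_le_iff₀ (hA20 l)]
      refine h3.trans ?_
      have h4 : (0 : ℝ) < Wt (e l) := by exact_mod_cast Wt_pos (e l)
      have e1 : ((mth (e l) : ℝ) + 1) * (1000 * κ * (ex e l * Real.log y) ^ 2) =
          4000 * (M0 * Real.log y) * (((mth (e l) : ℝ) + 1) / Wt (e l)) *
            (κ * (ex e l * Real.log y) / 4) := by
        rw [hexr l]
        field_simp
        ring
      rw [e1]
      exact mul_le_mul_of_nonneg_left h2 (by positivity)
    have h2 := Finset.sum_le_sum h1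
    rw [← Finset.mul_sum] at h2
    have h3 := sum_exp_le e he
    have hM0r : (0 : ℝ) < M0 := by exact_mod_cast hM01
    have h4 : 4000 * (M0 * Real.log y) * ∑ l, (((mth (e l) : ℝ) + 1) / Wt (e l)) ≤
        4000 * (M0 * Real.log y) * 8 := mul_le_mul_of_nonneg_left h3 (by positivity)
    rw [hSR, hR]
    push_cast
    rw [Real.log_pow]
    push_cast
    have h5 : 0 < M0 * Real.log y := by positivity
    nlinarith only [h2, h4, h5]
  have hlow : ∀ i, S.A1 i ^ 2 * (∏ l ∈ Finset.univ.erase i, S.A2 l) / 4 ≤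
      bil (fun j : PJf P => 1 / (((j : ℕ) : ℝ) - 1)) (S.lami i) (S.lami i) := by
    intro i
    have h1 := S.bil_lami_ge i hR1 hBsum
    rwa [hxj'] at h1
  have hAi : ∀ i, AA = S.A2 i * ∏ l ∈ Finset.univ.erase i, S.A2 l := fun i =>
    (Finset.mul_prod_erase Finset.univ _ (Finset.mem_univ i)).symm
  have hPr0 : ∀ s : Finset ι, 0 ≤ ∏ l ∈ s, S.A2 l := fun s =>
    Finset.prod_nonneg fun l _ => (hA20 l).le
  set T : ι → ℝ := fun i => V1 * S.A1 i ^ 2 / (4 * S.A2 i) with hTdef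
  have hTlow : ∀ i, cw * thw (e i) ≤ T i := by
    intro i
    obtain ⟨h1, _, _, h2, _⟩ := hod i
    have h3 : (0 : ℝ) < Wt (e i) := by exact_mod_cast Wt_pos (e i)
    rw [hthw]
    refine is_wn_num (m := mth (e i)) (W := Wt (e i)) (pw2 := 2 ^ mth (e i)) (M := M) (κ := κ)
      (Ly := ex e i * Real.log y) (L0 := Real.log y) (Ln := Real.log n) (Lz := Real.log z)
      (by exact_mod_cast mth_pos (e i)) (by positivity) ?_ hMr0 hκ hLy0 ?_ h1 h2 (hA20 i) hLy hV0
      hV10 hmert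
    · unfold Wt
      push_cast
      ring
    · rw [hexr i, hMdef]
      push_cast
      field_simp
  have hT0 : ∀ i, 0 < T i := fun i =>
    lt_of_lt_of_le (mul_pos cw_pos (hthw0 i)) (hTlow i)
  -- the upper bounds
  have hcomb : ∀ i k, i ≠ k → AA = S.A2 i * (S.A2 k *
      ∏ l ∈ (Finset.univ.erase i).erase k, S.A2 l) := by
    intro i k hik
    rw [hAi i, ← Finset.mul_prod_erase (Finset.univ.erase i) _
      (Finset.mem_erase.mpr ⟨Ne.symm hik, Finset.mem_univ k⟩)]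
  have hδT : ∀ i k, i ≠ k → δ ≤ T i * T k * AA := by
    intro i k hik
    refine (hδik i k hik).trans ?_
    calc (cw * thw (e i)) * (cw * thw (e k)) ≤ T i * T k :=
          mul_le_mul (hTlow i) (hTlow k) (mul_pos cw_pos (hthw0 k)).le (hT0 i).le
      _ = T i * T k * 1 := (mul_one _).symm
      _ ≤ T i * T k * AA := mul_le_mul_of_nonneg_left hAA1
          (mul_pos (hT0 i) (hT0 k)).le
  have hGT : κ * ((262144 * M0 : ℕ) * Real.log y) / 4 ≤ S.G0 Tt :=
    (hG (262144 * M0) (by omega) (by omega)).1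
  have hVG : 1 / 3200000 ≤ V1 * S.G0 Tt := by
    have h1 : Real.log n ≤ 8000 * ((262144 * M0 : ℕ) * Real.log y) := by
      refine hLy.trans (le_of_eq ?_)
      rw [hMdef]
      push_cast
      ring
    have h2 : κ * (10 * Real.log z) ≤ κ * (V1 * Real.log n) :=
      mul_le_mul_of_nonneg_left hV10 hκ.le
    have h3 : V1 * (κ * Real.log n) ≤ V1 * (κ * (8000 * ((262144 * M0 : ℕ) * Real.log y))) :=
      mul_le_mul_of_nonneg_left (mul_le_mul_of_nonneg_left h1 hκ.le) hV0.le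
    have h4 : V1 * (κ * ((262144 * M0 : ℕ) * Real.log y) / 4) ≤ V1 * S.G0 Tt :=
      mul_le_mul_of_nonneg_left hGT hV0.le
    nlinarith only [h2, h3, h4, hmert]
  have hGT1 : 1 ≤ S.G0 Tt := S.G0_ge_one Tt hTt1
  -- the weights
  set lam1 : ι → ι → (PJf P → Option ι) → ℝ := fun i k =>
    if i = k then fun _ => 0 else S.lamt i k 1 Tt with hlam1
  set lam2 : ι → ι → (PJf P → Option ι) → ℝ := fun i k =>
    if i = k then fun _ => 0 else S.lamt i k Tt Tt with hlam2
  refine ⟨S.lam, S.lami, lam1, lam2, AA, T, ?_, hTlow⟩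
  have hupl := hnerr z hz2' hz hYn P hP
  refine
    { base :=
        { bd := hbd
          bdi := fun i α => (S.abs_lami_le i α).trans hGR
          sup := hsupp
          supi := fun i α hα => by
            have h1 := S.lami_support i α hα
            rw [hpj] at h1
            exact ⟨h1.1, h1.2.trans hRM⟩
          link := fun i D y h => (S.ZI_lami D i y h).symm
          one := hAA1
          up := ?_
          lo := ?_ }
      lo := ?_
      bd1 := ?_
      bd2 := ?_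
      sup1 := ?_
      sup2 := ?_
      link := ?_
      up1 := ?_
      up2 := ?_ }
  · -- up
    have h1 := S.bil_lam_le
    rw [hxj, ← hAA] at h1
    have h2 := (abs_le.1 (hupl S.lam hbd hsupp)).2
    linarith only [h1, h2, hδ1, hAA1]
  · intro i
    rw [zero_mul]
    refine mul_nonneg hV0.le (le_trans ?_ (hlow i))
    have := hPr0 (Finset.univ.erase i)
    positivity
  · intro i
    have h1 := mul_le_mul_of_nonneg_left (hlow i) hV0.le
    refine le_trans (le_of_eq ?_) h1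
    rw [hAi i, hTdef]
    have h2 := (hA20 i).ne'
    field_simp
  · intro i k α
    by_cases hik : i = k
    · rw [hlam1]
      simp only [hik, if_true]
      rw [abs_zero]
      positivity
    · rw [hlam1]
      simp only [hik, if_false]
      exact hbdt i k hik 1 (le_refl _) (Or.inl rfl) α
  · intro i k α
    by_cases hik : i = k
    · rw [hlam2]
      simp only [hik, if_true]
      rw [abs_zero]
      positivity
    · rw [hlam2]
      simp only [hik, if_false]
      exact hbdt i k hik Tt hTt1 (Or.inr rfl) α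
  · intro i k α hα
    by_cases hik : i = k
    · rw [hlam1] at hα
      simp only [hik, if_true] at hα
      exact absurd rfl hα
    · rw [hlam1] at hα
      simp only [hik, if_false] at hα
      refine ⟨?_, hsuppt i k hik 1 (Or.inl rfl) α hα⟩
      exact S.part_empty_of_nn_le_one (S.lamt_parts i k 1 Tt α hα).1
  · intro i k α hα
    by_cases hik : i = k
    · rw [hlam2] at hα
      simp only [hik, if_true] at hα
      exact absurd rfl hα
    · rw [hlam2] at hα
      simp only [hik, if_false] at hα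
      exact hsuppt i k hik Tt (Or.inr rfl) α hα
  · intro i k hik D y h h'
    rw [hlam1, hlam2]
    simp only [hik, if_false]
    exact ⟨S.ZI_lamt D i k hik 1 Tt (le_refl _) hTt1 y h h',
      S.ZI_lamt D i k hik Tt Tt hTt1 hTt1 y h h'⟩
  · intro i k hik
    rw [hlam1]
    simp only [hik, if_false]
    have h1 := S.bil_lamt_le i k hik 1 Tt (le_refl _) hTt1
    rw [hxj] at h1
    have h2 := (abs_le.1 (hupl (S.lamt i k 1 Tt) (hbdt i k hik 1 (le_refl _) (Or.inl rfl))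
      (hsuppt i k hik 1 (Or.inl rfl)))).2
    have hG1 : 1 ≤ S.G0 1 := S.G0_ge_one 1 (le_refl _)
    have h3 : 4 * (S.A1 i * S.A1 k) ^ 2 / (S.G0 1 * S.G0 Tt) *
        ∏ l ∈ (Finset.univ.erase i).erase k, S.A2 l ≤ 4 * (S.A1 i * S.A1 k) ^ 2 / S.G0 Tt *
        ∏ l ∈ (Finset.univ.erase i).erase k, S.A2 l := by
      apply mul_le_mul_of_nonneg_right _ (hPr0 _)
      apply div_le_div_of_nonneg_left (by positivity) (by linarith only [hGT1])
      exact le_mul_of_one_le_left (by linarith only [hGT1]) hG1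
    exact is_wn_num2 hV0 (hA20 i) (hA20 k) (hPr0 _) (by linarith only [hGT1]) hVG (hcomb i k hik)
      (b := bil (fun j : PJf P => 1 / (((j : ℕ) : ℝ) - 1)) (S.lamt i k 1 Tt) (S.lamt i k 1 Tt))
      (e := δ) (by linarith only [h1, h2, h3]) hV1 (hδT i k hik) hδ0.le rfl
  · intro i k hik
    rw [hlam2]
    simp only [hik, if_false]
    have h1 := S.bil_lamt_le i k hik Tt Tt hTt1 hTt1
    rw [hxj] at h1
    have h2 := (abs_le.1 (hupl (S.lamt i k Tt Tt) (hbdt i k hik Tt hTt1 (Or.inr rfl))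
      (hsuppt i k hik Tt (Or.inr rfl)))).2
    exact is_wn_num3 hV0 (hA20 i) (hA20 k) (hPr0 _) (by linarith only [hGT1]) hVG (hcomb i k hik)
      (b := bil (fun j : PJf P => 1 / (((j : ℕ) : ℝ) - 1)) (S.lamt i k Tt Tt) (S.lamt i k Tt Tt))
      (e := δ) (by linarith only [h1, h2]) (hδT i k hik) rfl

end Pool.Agent.IS
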