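import Pool.Agent.Lib.MP_bca3e5_nt.IS.Defs

set_option autoImplicit false

/-!
Project IS, piece fin: the final theorem from the laws, the compactness theorem and the choice of
admissible sequences.
-/

namespace Pool.Agent.IS

open Finset Filter
open ArithmeticFunction (cardFactors)
open Pool.Agent.CM (kz)
open Pool.Agent.RC (Rou)

private lemma is_fin_pow {n p : ℕ} (h : kz n ≤ p) : n ≤ p ^ 11 := by
  have h1 : (n : ℝ) ^ (1 / 11 : ℝ) ≤ kz n := Nat.le_ceil _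
  have h2 : (n : ℝ) ^ (1 / 11 : ℝ) ≤ p := h1.trans (by exact_mod_cast h)
  have h3 : (n : ℝ) = ((n : ℝ) ^ (1 / 11 : ℝ)) ^ (11 : ℕ) := by
    rw [← Real.rpow_natCast, ← Real.rpow_mul (Nat.cast_nonneg _)]
    norm_num
  have h4 : (n : ℝ) ≤ (p : ℝ) ^ (11 : ℕ) := by
    rw [h3]
    exact pow_le_pow_left₀ (by positivity) h2 11
  exact_mod_cast h4

private lemma is_fin_lt {N x p : ℕ} (hx : x < N) (hp : p.Prime) (h : kz N ≤ p) : x < p ^ 12 :=
  calc x < N := hx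
    _ ≤ p ^ 11 := is_fin_pow h
    _ ≤ p ^ 12 := Nat.pow_le_pow_right hp.pos (by norm_num)

/-- One application of the compactness theorem. -/
private lemma is_fin_step (Pn Ps : ℕ → ℕ → Prop) (Gd : ℕ → Prop) (Es : ℕ → ℕ → Prop)
    (hG : ∀ N x, 2 ≤ x → x < N → Pn N x → Gd x) (hE : ∀ N x m, x < N → Ps N m → Es x m)
    (hAL : AL Pn Ps) (hK : R_K) (had : R_ad) (C : Set ℕ) (hC : C.Infinite)
    (hCe : ∀ a ∈ C, 0 < a ∧ Even a) :
    ∃ B : Set ℕ, B ⊆ C ∧ B.Infinite ∧ ∀ A : Finset ℕ, (A : Set ℕ) ⊆ B →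
      {x : ℕ | Gd x ∧ ∀ b ∈ A, Es x (b * x + 1)}.Infinite := by
  obtain ⟨a, haC, ha⟩ := had C hC hCe
  obtain ⟨c, K, hc, hKp, hl⟩ := hAL
  obtain ⟨I, hI, hJ⟩ := hK c K hc hKp Gd (fun i x => Es x (a i * x + 1)) (by
    intro k N0 hk
    obtain ⟨N, w, Y, T, h⟩ := hl a ha k (max N0 2) hk
    refine ⟨N, w, Y, T, ?_⟩
    exact
      { w0 := h.w0
        wG := by
          intro x hx
          obtain ⟨h1, h2, h3⟩ := h.wG x hx
          exact ⟨(le_max_left _ _).trans h1, h2, hG N x ((le_max_right _ _).trans h1) h2 h3⟩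
        w1 := h.w1
        Y0 := h.Y0
        YE := by
          intro i x hx hY
          obtain ⟨h1, h2, h3⟩ := h.wG x hx
          exact hE N x _ h2 (h.YE i x hx hY)
        T0 := h.T0
        lo := h.lo
        up := h.up })
  refine ⟨a '' I, ?_, hI.image ha.1.injOn, ?_⟩
  · rintro _ ⟨i, _, rfl⟩
    exact haC i
  · intro A hA
    refine (hJ (A.preimage a ha.1.injOn) ?_).mono ?_
    · intro i hi
      rw [mem_coe, mem_preimage] at hi
      obtain ⟨j, hj, hji⟩ := hA hi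
      rw [← ha.1 hji]
      exact hj
    · rintro x ⟨h1, h2⟩
      refine ⟨h1, ?_⟩
      intro b hb
      obtain ⟨i, hi, rfl⟩ := hA hb
      exact h2 i (mem_preimage.2 hb)

theorem p_fin : S_fin := by
  intro h1 h2 hK had C hC hCe
  obtain ⟨B1, hB1, hB1i, hJ1⟩ := is_fin_step P2P PrP
    (fun x => 1 < x ∧ cardFactors x ≤ 2 ∧ ∀ p : ℕ, p.Prime → p ∣ x → x < p ^ 12)
    (fun _ m => m.Prime)
    (by
      intro N x hx hxN h
      refine ⟨by omega, h.1, ?_⟩
      intro p hp hd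
      exact is_fin_lt hxN hp (h.2 p hp hd))
    (by
      intro N x m _ h
      exact h) h1 hK had C hC hCe
  obtain ⟨B, hB, hBi, hJ2⟩ := is_fin_step PrP P2P (fun x => x.Prime)
    (fun x m => cardFactors m ≤ 2 ∧ ∀ p : ℕ, p.Prime → p ∣ m → x < p ^ 12)
    (by
      intro N x _ _ h
      exact h)
    (by
      intro N x m hxN h
      refine ⟨h.1, ?_⟩
      intro p hp hd
      exact is_fin_lt hxN hp (h.2 p hp hd)) h2 hK had B1 hB1i (fun a ha => hCe a (hB1 ha))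
  refine ⟨B, hB.trans hB1, hBi, ?_⟩
  intro A hA
  refine ⟨(hJ1 A (hA.trans hB)).mono ?_, hJ2 A hA⟩
  rintro x ⟨⟨h3, h4, h5⟩, h6⟩
  exact ⟨h3, h4, h5, h6⟩

end Pool.Agent.IS
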